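import Pool.Agent.Results.MP_d0ed5b_an.ConjectureFails

open MeasureTheory Filter Topology
open scoped ComplexConjugate ENNReal InnerProductSpace

namespace Pool.Agent.Y825.RK

open Pool.Agent.Results.MP_d0ed5b_an.ConjectureFails (numRadius rankOneIndex kappa)

variable {𝕜 : Type*} [RCLike 𝕜] {H : Type*} [NormedAddCommGroup H] [InnerProductSpace 𝕜 H]
  [CompleteSpace H]

/-- Norming functionals in Hilbert spaces. -/
lemma hilb_norming {x : H} {f : H →L[𝕜] 𝕜} (hx : ‖x‖ = 1) (hf : ‖f‖ = 1) (hfx : f x = 1) (y : H) :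
    f y = ⟪x, y⟫_𝕜 := by
  set w : H := (InnerProductSpace.toDual 𝕜 H).symm f with hw
  have hfw : ∀ z, ⟪w, z⟫_𝕜 = f z := fun z => InnerProductSpace.toDual_symm_apply
  have hwn : ‖w‖ = 1 := by rw [hw, LinearIsometryEquiv.norm_map, hf]
  have h1 : ⟪w, x⟫_𝕜 = 1 := by rw [hfw, hfx]
  have h2 : w = x := (inner_eq_one_iff_of_norm_eq_one hwn hx).1 h1
  rw [← hfw, h2]

/-- The rank-one numerical index of a Hilbert space of dimension at least two is `1/2`. -/
theorem hilb (hr : 1 < Module.rank 𝕜 H) : rankOneIndex 𝕜 H = 1 / 2 := by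
  have hbdd : BddBelow {r : ℝ | ∃ T : H →L[𝕜] H,
      Module.finrank 𝕜 (LinearMap.range (T : H →ₗ[𝕜] H)) = 1 ∧
      ‖T‖ = 1 ∧ r = numRadius T} := by
    refine ⟨0, ?_⟩
    rintro _ ⟨S, _, _, rfl⟩
    apply Real.sSup_nonneg
    rintro _ ⟨x, f, _, _, _, rfl⟩
    exact norm_nonneg _
  -- two orthonormal vectors
  obtain ⟨u, v, hu, hv, huv⟩ : ∃ u v : H, ‖u‖ = 1 ∧ ‖v‖ = 1 ∧ ⟪u, v⟫_𝕜 = 0 := by
    have hnt : Nontrivial H := by
      rw [← rank_pos_iff_nontrivial (R := 𝕜)]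
      exact lt_trans zero_lt_one hr
    obtain ⟨u0, hu0⟩ := exists_ne (0 : H)
    set K : Submodule 𝕜 H := Submodule.span 𝕜 {u0} with hK
    have hKne : Kᗮ ≠ ⊥ := by
      intro h
      have h1 : K = ⊤ := by
        rwa [Submodule.orthogonal_eq_bot_iff] at h
      have h2 : Module.rank 𝕜 H ≤ 1 := by
        rw [← rank_top 𝕜 H, ← h1]
        exact (rank_span_le _).trans (by simp)
      exact absurd hr (not_lt.2 h2)
    obtain ⟨v0, hv0, hv0n⟩ := Submodule.exists_mem_ne_zero_of_ne_bot hKne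
    have hun : ‖u0‖ ≠ 0 := norm_ne_zero_iff.2 hu0
    have hvn : ‖v0‖ ≠ 0 := norm_ne_zero_iff.2 hv0n
    refine ⟨((‖u0‖⁻¹ : ℝ) : 𝕜) • u0, ((‖v0‖⁻¹ : ℝ) : 𝕜) • v0, ?_, ?_, ?_⟩
    · rw [norm_smul, RCLike.norm_ofReal, abs_of_nonneg (by positivity), inv_mul_cancel₀ hun]
    · rw [norm_smul, RCLike.norm_ofReal, abs_of_nonneg (by positivity), inv_mul_cancel₀ hvn]
    · rw [inner_smul_left, inner_smul_right,
        Submodule.mem_orthogonal_singleton_iff_inner_right.1 hv0, mul_zero, mul_zero]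
  apply le_antisymm
  · -- upper bound
    set T : H →L[𝕜] H := (innerSL 𝕜 u).smulRight v with hT
    have hTx : ∀ x, T x = ⟪u, x⟫_𝕜 • v := fun x => rfl
    have hTn : ‖T‖ = 1 := by
      rw [hT, ContinuousLinearMap.norm_smulRight_apply, innerSL_apply_norm, hu, hv, one_mul]
    have hmem : numRadius T ∈ {r : ℝ | ∃ T : H →L[𝕜] H,
      Module.finrank 𝕜 (LinearMap.range (T : H →ₗ[𝕜] H)) = 1 ∧ ‖T‖ = 1 ∧ r = numRadius T} := by
      refine ⟨T, ?_, hTn, rfl⟩
      have hrange : LinearMap.range (T : H →ₗ[𝕜] H) = Submodule.span 𝕜 {v} := by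
        ext z
        rw [LinearMap.mem_range, Submodule.mem_span_singleton]
        constructor
        · rintro ⟨x, rfl⟩
          exact ⟨⟪u, x⟫_𝕜, rfl⟩
        · rintro ⟨a, rfl⟩
          refine ⟨a • u, ?_⟩
          show T (a • u) = a • v
          rw [hTx, inner_smul_right, inner_self_eq_norm_sq_to_K, hu]
          simp
      rw [hrange]
      exact finrank_span_singleton (norm_ne_zero_iff.1 (by rw [hv]; exact one_ne_zero))
    refine (csInf_le hbdd hmem).trans ?_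
    apply Real.sSup_le _ (by norm_num)
    rintro _ ⟨x, f, hx, hf, hfx, rfl⟩
    rw [hilb_norming hx hf hfx, hTx, inner_smul_right, norm_mul]
    have horth : Orthonormal 𝕜 ![u, v] := by
      rw [orthonormal_iff_ite]
      intro i j
      have hvu : ⟪v, u⟫_𝕜 = 0 := by rw [← inner_conj_symm, huv, map_zero]
      fin_cases i <;> fin_cases j <;> simp [inner_self_eq_norm_sq_to_K, hu, hv, huv, hvu]
    have hbes := horth.sum_inner_products_le (s := Finset.univ) (x := x)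
    rw [Fin.sum_univ_two, hx] at hbes
    simp only [Matrix.cons_val_zero, Matrix.cons_val_one] at hbes
    have hsw : ‖⟪x, v⟫_𝕜‖ = ‖⟪v, x⟫_𝕜‖ := norm_inner_symm _ _
    rw [hsw]
    nlinarith [sq_nonneg (‖⟪u, x⟫_𝕜‖ - ‖⟪v, x⟫_𝕜‖)]
  · -- lower bound
    apply le_csInf
    · refine ⟨numRadius ((innerSL 𝕜 u).smulRight v), (innerSL 𝕜 u).smulRight v, ?_, ?_, rfl⟩
      · have hrange : LinearMap.range (((innerSL 𝕜 u).smulRight v : H →L[𝕜] H) : H →ₗ[𝕜] H) =
            Submodule.span 𝕜 {v} := by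
          ext z
          rw [LinearMap.mem_range, Submodule.mem_span_singleton]
          constructor
          · rintro ⟨x, rfl⟩
            exact ⟨⟪u, x⟫_𝕜, rfl⟩
          · rintro ⟨a, rfl⟩
            refine ⟨a • u, ?_⟩
            show ⟪u, a • u⟫_𝕜 • v = a • v
            rw [inner_smul_right, inner_self_eq_norm_sq_to_K, hu]
            simp
        rw [hrange]
        exact finrank_span_singleton (norm_ne_zero_iff.1 (by rw [hv]; exact one_ne_zero))
      · rw [ContinuousLinearMap.norm_smulRight_apply, innerSL_apply_norm, hu, hv, one_mul]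
    · rintro _ ⟨T, hfr, hTn, rfl⟩
      -- the range
      obtain ⟨u1, hu1, hspan⟩ := finrank_eq_one_iff'.1 hfr
      set e0 : H := (u1 : H) with he0
      have he0n : e0 ≠ 0 := fun h => hu1 (Subtype.ext h)
      set e : H := ((‖e0‖⁻¹ : ℝ) : 𝕜) • e0 with he
      have he0' : ‖e0‖ ≠ 0 := norm_ne_zero_iff.2 he0n
      have hen : ‖e‖ = 1 := by
        rw [he, norm_smul, RCLike.norm_ofReal, abs_of_nonneg (by positivity), inv_mul_cancel₀ he0']
      have hTe : ∀ x, ∃ c : 𝕜, T x = c • e := by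
        intro x
        obtain ⟨c, hc⟩ := hspan ⟨T x, LinearMap.mem_range_self (T : H →ₗ[𝕜] H) x⟩
        refine ⟨c * ((‖e0‖ : ℝ) : 𝕜), ?_⟩
        have h1 : c • e0 = T x := congrArg Subtype.val hc
        rw [← h1, he, smul_smul, mul_assoc, ← RCLike.ofReal_mul, mul_inv_cancel₀ he0',
          RCLike.ofReal_one, mul_one]
      set w : H := ContinuousLinearMap.adjoint T e with hw
      have hTw : ∀ x, T x = ⟪w, x⟫_𝕜 • e := by
        intro x
        obtain ⟨c, hc⟩ := hTe x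
        rw [hw, ContinuousLinearMap.adjoint_inner_left, hc, inner_smul_right,
          inner_self_eq_norm_sq_to_K, hen]
        simp
      have hwn : 1 ≤ ‖w‖ := by
        rw [← hTn]
        apply T.opNorm_le_bound (norm_nonneg _)
        intro x
        rw [hTw, norm_smul, hen, mul_one]
        exact norm_inner_le_norm _ _
      have hw0 : ‖w‖ ≠ 0 := by linarith
      set w0 : H := ((‖w‖⁻¹ : ℝ) : 𝕜) • w with hw0d
      have hw0n : ‖w0‖ = 1 := by
        rw [hw0d, norm_smul, RCLike.norm_ofReal, abs_of_nonneg (by positivity), inv_mul_cancel₀ hw0]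
      have hww0 : w = ((‖w‖ : ℝ) : 𝕜) • w0 := by
        rw [hw0d, smul_smul, ← RCLike.ofReal_mul, mul_inv_cancel₀ hw0, RCLike.ofReal_one, one_smul]
      -- phase
      obtain ⟨o, ho, hoc⟩ : ∃ o : 𝕜, ‖o‖ = 1 ∧ o * ⟪w0, e⟫_𝕜 = ((‖⟪w0, e⟫_𝕜‖ : ℝ) : 𝕜) := by
        rcases eq_or_ne ⟪w0, e⟫_𝕜 0 with h | h
        · exact ⟨1, norm_one, by simp [h]⟩
        · have h0 : ‖⟪w0, e⟫_𝕜‖ ≠ 0 := norm_ne_zero_iff.2 h
          refine ⟨((‖⟪w0, e⟫_𝕜‖ : ℝ) : 𝕜) / ⟪w0, e⟫_𝕜, ?_, by field_simp⟩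
          rw [norm_div, RCLike.norm_ofReal, abs_of_nonneg (norm_nonneg _), div_self h0]
      set c : ℝ := ‖⟪w0, e⟫_𝕜‖ with hc
      have hc0 : 0 ≤ c := norm_nonneg _
      set z : H := o • e + w0 with hz
      have i1 : ⟪w0, z⟫_𝕜 = ((c + 1 : ℝ) : 𝕜) := by
        rw [hz, inner_add_right, inner_smul_right, hoc, inner_self_eq_norm_sq_to_K, hw0n]
        push_cast
        ring
      have i3 : ⟪z, w0⟫_𝕜 = ((c + 1 : ℝ) : 𝕜) := by
        rw [← inner_conj_symm, i1, RCLike.conj_ofReal]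
      have i4 : ⟪z, o • e⟫_𝕜 = ((c + 1 : ℝ) : 𝕜) := by
        have h1 : ⟪w0, o • e⟫_𝕜 = (c : 𝕜) := by rw [inner_smul_right, hoc]
        have h2 : ⟪o • e, o • e⟫_𝕜 = 1 := by
          rw [inner_self_eq_norm_sq_to_K, norm_smul, ho, hen]
          simp
        rw [hz, inner_add_left, h1, h2]
        push_cast
        ring
      have i2 : ‖⟪z, e⟫_𝕜‖ = c + 1 := by
        have h1 : ‖⟪z, o • e⟫_𝕜‖ = c + 1 := by
          rw [i4, RCLike.norm_ofReal, abs_of_nonneg (by linarith)]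
        rw [inner_smul_right, norm_mul, ho, one_mul] at h1
        exact h1
      have hzn : ‖z‖ ^ 2 = 2 * (c + 1) := by
        have h1 : ⟪z, z⟫_𝕜 = ((2 * (c + 1) : ℝ) : 𝕜) := by
          conv_lhs => rw [hz]
          rw [← hz, show ⟪z, o • e + w0⟫_𝕜 = ⟪z, o • e⟫_𝕜 + ⟪z, w0⟫_𝕜 from inner_add_right _ _ _,
            i4, i3]
          push_cast
          ring
        rw [inner_self_eq_norm_sq_to_K] at h1
        exact_mod_cast h1
      have hzpos : 0 < ‖z‖ := by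
        have h1 : 0 < ‖z‖ ^ 2 := by rw [hzn]; linarith
        rcases (norm_nonneg z).eq_or_lt with h | h
        · rw [← h] at h1
          norm_num at h1
        · exact h
      set x : H := ((‖z‖⁻¹ : ℝ) : 𝕜) • z with hx
      have hxn : ‖x‖ = 1 := by
        rw [hx, norm_smul, RCLike.norm_ofReal, abs_of_nonneg (by positivity),
          inv_mul_cancel₀ hzpos.ne']
      have hmem : ‖(innerSL 𝕜 x) (T x)‖ ∈ {r : ℝ | ∃ (x : H) (f : H →L[𝕜] 𝕜),
          ‖x‖ = 1 ∧ ‖f‖ = 1 ∧ f x = 1 ∧ r = ‖f (T x)‖} := by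
        refine ⟨x, innerSL 𝕜 x, hxn, by rw [innerSL_apply_norm, hxn], ?_, rfl⟩
        rw [innerSL_apply_apply, inner_self_eq_norm_sq_to_K, hxn]
        simp
      have hba : BddAbove {r : ℝ | ∃ (x : H) (f : H →L[𝕜] 𝕜),
          ‖x‖ = 1 ∧ ‖f‖ = 1 ∧ f x = 1 ∧ r = ‖f (T x)‖} := by
        refine ⟨1, ?_⟩
        rintro _ ⟨x, f, hx, hf, hfx, rfl⟩
        have h1 := f.le_opNorm (T x)
        have h2 := T.le_opNorm x
        rw [hx, hTn] at h2
        rw [hf] at h1
        linarith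
      refine le_trans ?_ (le_csSup hba hmem)
      rw [innerSL_apply_apply, hTw, inner_smul_right, norm_mul]
      have e1 : ‖⟪w, x⟫_𝕜‖ = ‖w‖ * (‖z‖⁻¹ * (c + 1)) := by
        rw [hx, inner_smul_right, norm_mul, RCLike.norm_ofReal, abs_of_nonneg (by positivity)]
        have : ⟪w, z⟫_𝕜 = ((‖w‖ : ℝ) : 𝕜) * ((c + 1 : ℝ) : 𝕜) := by
          conv_lhs => rw [hww0]
          rw [inner_smul_left, RCLike.conj_ofReal, i1]
        rw [this, norm_mul, RCLike.norm_ofReal, RCLike.norm_ofReal, abs_of_nonneg (norm_nonneg w),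
          abs_of_nonneg (by linarith)]
        ring
      have e2 : ‖⟪x, e⟫_𝕜‖ = ‖z‖⁻¹ * (c + 1) := by
        rw [hx, inner_smul_left, norm_mul, RCLike.norm_conj, RCLike.norm_ofReal,
          abs_of_nonneg (by positivity), i2]
      rw [e1, e2]
      have e3 : ‖w‖ * (‖z‖⁻¹ * (c + 1)) * (‖z‖⁻¹ * (c + 1)) = ‖w‖ * ((c + 1) ^ 2 / ‖z‖ ^ 2) := by
        field_simp
      rw [e3, hzn]
      have e4 : (c + 1) ^ 2 / (2 * (c + 1)) = (c + 1) / 2 := by
        field_simp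
      rw [e4]
      nlinarith

end Pool.Agent.Y825.RK
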