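import Pool.Agent.Y825.RK.Norming

open MeasureTheory Filter Topology
open scoped ComplexConjugate ENNReal

namespace Pool.Agent.Y825.RK

/-- The constant of the pointwise inequality works in the following sense. -/
def Good (p q C : ℝ) : Prop :=
  0 ≤ C ∧ (∀ r c s : ℝ, 0 ≤ r → c ^ 2 + s ^ 2 = r ^ 2 →
      |r ^ p / q + 1 / p - r ^ (p - 2) * c| + |r ^ (p - 2) * s - s| ≤
        C * (r ^ p / p + 1 / q - c)) ∧
    (∀ r c s : ℝ, 0 ≤ r → c ^ 2 + s ^ 2 = r ^ 2 →
      |r ^ q / p + 1 / q - r ^ (q - 2) * c| + |r ^ (q - 2) * s - s| ≤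
        C * (r ^ q / q + 1 / p - c))

lemma exists_good {p q : ℝ} (hpq : p.HolderConjugate q) : ∃ C, Good p q C := by
  obtain ⟨C1, h1, h2⟩ := point hpq
  obtain ⟨C2, h3, h4⟩ := point hpq.symm
  refine ⟨max C1 C2, le_max_of_le_left h1, ?_, ?_⟩
  · intro r c s hr hs
    refine (h2 r c s hr hs).trans ?_
    have h5 := young_nonneg hpq hr
    have h6 : c ≤ r := by
      have := abs_le_of_sq_le_sq (a := c) (b := r) (by nlinarith [sq_nonneg s]) hr
      exact (abs_le.1 this).2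
    apply mul_le_mul_of_nonneg_right (le_max_left _ _)
    linarith
  · intro r c s hr hs
    refine (h4 r c s hr hs).trans ?_
    have h5 := young_nonneg hpq.symm hr
    have h6 : c ≤ r := by
      have := abs_le_of_sq_le_sq (a := c) (b := r) (by nlinarith [sq_nonneg s]) hr
      exact (abs_le.1 this).2
    apply mul_le_mul_of_nonneg_right (le_max_right _ _)
    linarith

variable {𝕜 : Type*} [RCLike 𝕜] {Ω : Type*} [MeasurableSpace Ω] {μ : Measure Ω}

/-- The localized inequality on a set of finite positive measure. -/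
theorem loc {p q C : ℝ} (hpq : p.HolderConjugate q) (hC : Good p q C)
    {A : Set Ω} (hA0 : μ A ≠ 0) (hAt : μ A ≠ ∞) {x : Ω → 𝕜}
    (hx : AEStronglyMeasurable x (μ.restrict A))
    (hi : IntegrableOn (fun ω => ‖x ω‖ ^ p) A μ) {l α : ℝ} (hl : l = ∫ ω in A, ‖x ω‖ ^ p ∂μ)
    (hα : α = μ.real A) {a a' : 𝕜}
    (ha : a = ((α ^ (-(1 / q)) : ℝ) : 𝕜) * ∫ ω in A, x ω ∂μ)
    (ha' : a' = ((α ^ (-(1 / p)) : ℝ) : 𝕜) * ∫ ω in A, J p (x ω) ∂μ) :
    ‖a‖ ≤ l ^ (1 / p) ∧ ‖a'‖ ≤ l ^ (1 / q) ∧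
      ‖(l : 𝕜) - a * a'‖ ≤ (C + 1) * (l ^ (1 / q) * (l ^ (1 / p) - ‖a‖)) ∧
      ‖(l : 𝕜) - a * a'‖ ≤ (C + 1) * (l ^ (1 / p) * (l ^ (1 / q) - ‖a'‖)) := by
  have hp := hpq.pos
  have hq := hpq.symm.pos
  have hsum : 1 / p + 1 / q = 1 := by
    have := hpq.inv_add_inv_eq_one
    simpa [one_div] using this
  have hαp : 0 < α := by
    rw [hα, Measure.real]
    exact ENNReal.toReal_pos hA0 hAt
  have hl0 : 0 ≤ l := by
    rw [hl]
    exact integral_nonneg fun ω => by positivity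
  rcases hl0.eq_or_lt with h0 | h0
  · -- degenerate case
    have hz : (fun ω => ‖x ω‖ ^ p) =ᵐ[μ.restrict A] 0 := by
      refine (integral_eq_zero_iff_of_nonneg (fun ω => by positivity) hi).1 ?_
      rw [← hl, ← h0]
    have hz' : x =ᵐ[μ.restrict A] 0 := by
      filter_upwards [hz] with ω h
      have h' : ‖x ω‖ ^ p = 0 := h
      have := (Real.rpow_eq_zero (norm_nonneg _) hp.ne').1 h'
      exact norm_eq_zero.1 this
    have e1 : ∫ ω in A, x ω ∂μ = 0 := by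
      rw [integral_congr_ae hz']; simp
    have e2 : ∫ ω in A, J p (x ω) ∂μ = 0 := by
      have : (fun ω => J p (x ω)) =ᵐ[μ.restrict A] 0 := by
        filter_upwards [hz'] with ω h
        rw [h]
        simp [J]
      rw [integral_congr_ae this]; simp
    rw [e1, mul_zero] at ha
    rw [e2, mul_zero] at ha'
    rw [ha, ha', ← h0]
    have z1 : (0 : ℝ) ^ (1 / p) = 0 := Real.zero_rpow (by positivity)
    have z2 : (0 : ℝ) ^ (1 / q) = 0 := Real.zero_rpow (by positivity)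
    rw [z1, z2]
    simp
  · haveI : IsFiniteMeasure (μ.restrict A) := ⟨by
      rw [Measure.restrict_apply_univ]; exact lt_of_le_of_ne le_top hAt⟩
    set ν : Measure Ω := ProbabilityTheory.cond μ A with hν
    haveI : IsProbabilityMeasure ν := ProbabilityTheory.cond_isProbabilityMeasure_of_finite hA0 hAt
    have hνdef : ν = (μ A)⁻¹ • μ.restrict A := rfl
    have hinv : ((μ A)⁻¹).toReal = α⁻¹ := by
      rw [ENNReal.toReal_inv, hα, Measure.real]
    have hne : (μ A)⁻¹ ≠ ∞ := ENNReal.inv_ne_top.2 hA0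
    set s : ℝ := (α / l) ^ (1 / p) with hs
    have hsp : 0 < s := by positivity
    have hsP : s ^ p = α / l := by
      rw [hs, ← Real.rpow_mul (by positivity), one_div_mul_cancel hp.ne', Real.rpow_one]
    set L : ℝ := l ^ (1 / p) with hL
    set M : ℝ := l ^ (1 / q) with hM
    have hLp : 0 < L := by positivity
    have hMp : 0 < M := by positivity
    have hLM : L * M = l := by
      rw [hL, hM, ← Real.rpow_add h0, hsum, Real.rpow_one]
    have hs1 : s = α ^ (1 / p) / L := by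
      rw [hs, hL, Real.div_rpow hαp.le h0.le]
    have hp1q : (p - 1) / p = 1 / q := by
      rw [sub_div, div_self hp.ne']; linarith
    have hs2 : s ^ (p - 1) = α ^ (1 / q) / M := by
      rw [hs, ← Real.rpow_mul (by positivity), hM, ← Real.div_rpow hαp.le h0.le]
      congr 1
      rw [← hp1q]; ring
    have hy : AEStronglyMeasurable (fun ω => (s : 𝕜) * x ω) ν := by
      rw [hνdef]
      exact (hx.const_mul (s : 𝕜)).smul_measure _
    have hnorm : ∀ ω, ‖(s : 𝕜) * x ω‖ ^ p = s ^ p * ‖x ω‖ ^ p := by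
      intro ω
      rw [norm_mul, RCLike.norm_ofReal, abs_of_pos hsp, Real.mul_rpow hsp.le (norm_nonneg _)]
    have hiy : Integrable (fun ω => ‖(s : 𝕜) * x ω‖ ^ p) ν := by
      simp only [hnorm]
      rw [hνdef]
      exact (hi.const_mul (s ^ p)).smul_measure hne
    have h1 : ∫ ω, ‖(s : 𝕜) * x ω‖ ^ p ∂ν = 1 := by
      simp only [hnorm]
      rw [hνdef, integral_smul_measure, integral_const_mul, ← hl, hinv, hsP, smul_eq_mul]
      field_simp
    have e1 : ∫ ω, (s : 𝕜) * x ω ∂ν = a / (L : 𝕜) := by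
      rw [hνdef, integral_smul_measure, integral_const_mul, hinv, ha, hs1,
        RCLike.real_smul_eq_coe_mul]
      have h2 : α⁻¹ * α ^ (1 / p) = α ^ (-(1 / q)) := by
        rw [← Real.rpow_neg_one, ← Real.rpow_add hαp]
        congr 1
        linarith
      rw [← h2]
      push_cast
      ring
    have e2 : ∫ ω, J p ((s : 𝕜) * x ω) ∂ν = a' / (M : 𝕜) := by
      simp only [J_real_mul hsp]
      rw [hνdef, integral_smul_measure, integral_const_mul, hinv, ha', hs2,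
        RCLike.real_smul_eq_coe_mul]
      have h2 : α⁻¹ * α ^ (1 / q) = α ^ (-(1 / p)) := by
        rw [← Real.rpow_neg_one, ← Real.rpow_add hαp]
        congr 1
        linarith
      rw [← h2]
      push_cast
      ring
    have r1 := prob1 (ν := ν) hpq hC.1 hC.2.1 hy hiy h1
    have r2 := prob2 (ν := ν) hpq hC.1 hC.2.2 hy hiy h1
    rw [e1, e2] at r1 r2
    have hLn : ‖a / (L : 𝕜)‖ = ‖a‖ / L := by
      rw [norm_div, RCLike.norm_ofReal, abs_of_pos hLp]
    have hMn : ‖a' / (M : 𝕜)‖ = ‖a'‖ / M := by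
      rw [norm_div, RCLike.norm_ofReal, abs_of_pos hMp]
    rw [hLn] at r1
    rw [hMn] at r2
    have hL0 : (L : 𝕜) ≠ 0 := by exact_mod_cast hLp.ne'
    have hM0 : (M : 𝕜) ≠ 0 := by exact_mod_cast hMp.ne'
    have hprod : ‖(l : 𝕜) - a * a'‖ = l * ‖1 - a / (L : 𝕜) * (a' / (M : 𝕜))‖ := by
      have : (l : 𝕜) - a * a' = (l : 𝕜) * (1 - a / (L : 𝕜) * (a' / (M : 𝕜))) := by
        have hl' : (l : 𝕜) = (L : 𝕜) * (M : 𝕜) := by rw [← hLM]; push_cast; ring
        rw [hl']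
        field_simp
      rw [this, norm_mul, RCLike.norm_ofReal, abs_of_pos h0]
    refine ⟨?_, ?_, ?_, ?_⟩
    · have := r1.1
      rwa [div_le_one hLp] at this
    · have := r2.1
      rwa [div_le_one hMp] at this
    · rw [hprod]
      calc l * ‖1 - a / (L : 𝕜) * (a' / (M : 𝕜))‖ ≤ l * ((C + 1) * (1 - ‖a‖ / L)) := by
            gcongr
            exact r1.2
        _ = (C + 1) * (M * (L - ‖a‖)) := by
            rw [← hLM]
            field_simp
    · rw [hprod]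
      calc l * ‖1 - a / (L : 𝕜) * (a' / (M : 𝕜))‖ ≤ l * ((C + 1) * (1 - ‖a'‖ / M)) := by
            gcongr
            exact r2.2
        _ = (C + 1) * (L * (M - ‖a'‖)) := by
            rw [← hLM]
            field_simp

/-- The final numerical estimate. -/
lemma numer {P κ C C1 t₀ η : ℝ} (hP : 1 < P) (hκ : 0 < κ) (hC1 : 0 ≤ C1) (hη : 0 < η)
    (hηt : η ≤ t₀) (hη2 : η ≤ κ / (2 * (P * (1 + C1)))) (hCn : 0 ≤ C)
    {l m la la' mb mb' : ℝ} (hl : 0 ≤ l) (hm : 0 ≤ m) (hlm : l + m ≤ 1)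
    (hla1 : la ≤ 1) (hla'0 : 0 ≤ la') (hla'1 : la' ≤ 1) (hmb0 : 0 ≤ mb) (hmb1 : mb ≤ 1)
    (hmb'1 : mb' ≤ 1)
    (hkey : ∀ t : ℝ, |t| ≤ t₀ → la * mb' + t * (m - (P - 1) * l) ≤ κ + C * t ^ 2)
    {a a' b b' : 𝕜} (h1 : ‖a‖ ≤ la) (h2 : ‖a'‖ ≤ la') (h3 : ‖b‖ ≤ mb) (h4 : ‖b'‖ ≤ mb')
    (h5 : ‖(l : 𝕜) - a * a'‖ ≤ C1 * (la' * (la - ‖a‖)))
    (h6 : ‖(m : 𝕜) - b * b'‖ ≤ C1 * (mb * (mb' - ‖b'‖))) :
    ‖(a + (η : 𝕜) * b) * (b' - (((P - 1) * η : ℝ) : 𝕜) * a')‖ ≤ κ + (C + (P - 1)) * η ^ 2 := by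
  have hP1 : 0 < P - 1 := by linarith
  have hna := norm_nonneg a
  have hna' := norm_nonneg a'
  have hnb := norm_nonneg b
  have hnb' := norm_nonneg b'
  have hexp : (a + (η : 𝕜) * b) * (b' - (((P - 1) * η : ℝ) : 𝕜) * a') =
      a * b' + (((η * (m - (P - 1) * l) : ℝ) : 𝕜)
        + ((((P - 1) * η : ℝ) : 𝕜) * ((l : 𝕜) - a * a') - (η : 𝕜) * ((m : 𝕜) - b * b')))
        - (((P - 1) * η ^ 2 : ℝ) : 𝕜) * (b * a') := by
    push_cast
    ring
  have hA : ‖(a + (η : 𝕜) * b) * (b' - (((P - 1) * η : ℝ) : 𝕜) * a')‖ ≤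
      ‖a‖ * ‖b'‖ + (|η * (m - (P - 1) * l)| +
        ((P - 1) * η * ‖(l : 𝕜) - a * a'‖ + η * ‖(m : 𝕜) - b * b'‖)) +
        (P - 1) * η ^ 2 * (‖b‖ * ‖a'‖) := by
    rw [hexp]
    refine (norm_sub_le _ _).trans ?_
    refine add_le_add ((norm_add_le _ _).trans (add_le_add (norm_mul _ _).le
      ((norm_add_le _ _).trans (add_le_add ?_ ((norm_sub_le _ _).trans (add_le_add ?_ ?_)))))) ?_
    · rw [RCLike.norm_ofReal]
    · rw [norm_mul, RCLike.norm_ofReal, abs_of_pos (by positivity)]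
    · rw [norm_mul, RCLike.norm_ofReal, abs_of_pos (by positivity)]
    · rw [norm_mul, norm_mul, RCLike.norm_ofReal, abs_of_pos (by positivity)]
  set δa := la - ‖a‖ with hδa
  set δb := mb' - ‖b'‖ with hδb
  have hδa0 : 0 ≤ δa := by linarith
  have hδb0 : 0 ≤ δb := by linarith
  have hδa1 : δa ≤ 1 := by linarith
  have hδb1 : δb ≤ 1 := by linarith
  have h5' : ‖(l : 𝕜) - a * a'‖ ≤ C1 * δa := by
    refine h5.trans ?_
    apply mul_le_mul_of_nonneg_left _ hC1
    exact mul_le_of_le_one_left hδa0 hla'1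
  have h6' : ‖(m : 𝕜) - b * b'‖ ≤ C1 * δb := by
    refine h6.trans ?_
    apply mul_le_mul_of_nonneg_left _ hC1
    exact mul_le_of_le_one_left hδb0 hmb1
  have hba : ‖b‖ * ‖a'‖ ≤ 1 := mul_le_one₀ (h3.trans hmb1) hna' (h2.trans hla'1)
  have habs : |η * (m - (P - 1) * l)| ≤ κ + C * η ^ 2 - la * mb' := by
    rcases abs_cases (η * (m - (P - 1) * l)) with ⟨h7, _⟩ | ⟨h7, _⟩
    · rw [h7]
      have := hkey η (by rwa [abs_of_pos hη])
      linarith
    · rw [h7]
      have := hkey (-η) (by rwa [abs_neg, abs_of_pos hη])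
      rw [neg_sq] at this
      linarith
  have habs2 : |η * (m - (P - 1) * l)| ≤ η * P := by
    rw [abs_mul, abs_of_pos hη]
    apply mul_le_mul_of_nonneg_left _ hη.le
    rw [abs_le]
    constructor
    · nlinarith
    · nlinarith
  have hPC : 0 < P * (1 + C1) := by positivity
  have hη3 : η * (P * (1 + C1)) ≤ κ / 2 := by
    calc η * (P * (1 + C1)) ≤ κ / (2 * (P * (1 + C1))) * (P * (1 + C1)) := by gcongr
      _ = κ / 2 := by field_simp
  have hlast : (P - 1) * η ^ 2 * (‖b‖ * ‖a'‖) ≤ (P - 1) * η ^ 2 :=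
    mul_le_of_le_one_right (by positivity) hba
  have herr : (P - 1) * η * ‖(l : 𝕜) - a * a'‖ + η * ‖(m : 𝕜) - b * b'‖ ≤
      (P - 1) * η * (C1 * δa) + η * (C1 * δb) := by gcongr
  have hCη : 0 ≤ C * η ^ 2 := by positivity
  rcases le_total (κ / 2) (‖a‖ * ‖b'‖) with hc | hc
  · have ha2 : κ / 2 ≤ ‖a‖ := by
      have : ‖a‖ * ‖b'‖ ≤ ‖a‖ * 1 := by gcongr; linarith
      linarith
    have hb2 : κ / 2 ≤ mb' := by
      have : ‖a‖ * ‖b'‖ ≤ 1 * ‖b'‖ := by gcongr; linarith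
      linarith
    have hid : la * mb' - ‖a‖ * ‖b'‖ = δa * mb' + ‖a‖ * δb := by
      rw [hδa, hδb]; ring
    have e1 : (P - 1) * η * (C1 * δa) ≤ δa * mb' := by
      have : (P - 1) * η * C1 ≤ κ / 2 := by nlinarith [mul_nonneg hη.le hC1]
      calc (P - 1) * η * (C1 * δa) = ((P - 1) * η * C1) * δa := by ring
        _ ≤ mb' * δa := by gcongr; linarith
        _ = _ := by ring
    have e2 : η * (C1 * δb) ≤ ‖a‖ * δb := by
      have : η * C1 ≤ κ / 2 := by nlinarith [mul_nonneg hη.le hC1]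
      calc η * (C1 * δb) = (η * C1) * δb := by ring
        _ ≤ ‖a‖ * δb := by gcongr; linarith
    linarith
  · have e1 : (P - 1) * η * (C1 * δa) ≤ (P - 1) * η * C1 := by
      calc (P - 1) * η * (C1 * δa) = ((P - 1) * η * C1) * δa := by ring
        _ ≤ ((P - 1) * η * C1) * 1 := by gcongr
        _ = _ := by ring
    have e2 : η * (C1 * δb) ≤ η * C1 := by
      calc η * (C1 * δb) = (η * C1) * δb := by ring
        _ ≤ (η * C1) * 1 := by gcongr
        _ = _ := by ring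
    have e3 : η * (P * (1 + C1)) = η * P + ((P - 1) * η * C1 + η * C1) := by ring
    linarith

end Pool.Agent.Y825.RK
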