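import Pool.Agent.Y825.RK.Sets
import Pool.Agent.Results.MP_d0ed5b_an.ConjectureFails

open MeasureTheory Filter Topology
open scoped ComplexConjugate ENNReal

namespace Pool.Agent.Y825.RK

open Pool.Agent.Results.MP_d0ed5b_an.ConjectureFails (numRadius rankOneIndex kappa)
open Pool.Agent.H398R3.RO (kap kap_pos key exists_eta)

universe u v

/-- The gap for measures with two disjoint sets of finite positive measure. -/
theorem two_sets (p : ℝ≥0∞) [Fact (1 ≤ p)] (hp : 1 < p) (htop : p ≠ ∞) (h2 : p ≠ 2) :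
    ∃ ε : ℝ, 0 < ε ∧ ∀ (𝕜 : Type u) [RCLike 𝕜] (Ω : Type v) [MeasurableSpace Ω] (μ : Measure Ω)
      (A B : Set Ω), MeasurableSet A → MeasurableSet B → Disjoint A B →
      μ A ≠ 0 → μ A ≠ ∞ → μ B ≠ 0 → μ B ≠ ∞ →
      rankOneIndex 𝕜 (Lp 𝕜 p μ) ≤ kappa p.toReal - ε := by
  have h1 : 1 < p.toReal := by
    have := (ENNReal.toReal_lt_toReal (by simp) htop).2 hp
    simpa using this
  have hp0 : 0 < p.toReal := by linarith
  have hp2 : p.toReal ≠ 2 := by
    intro h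
    apply h2
    rw [← ENNReal.ofReal_toReal htop, h]
    norm_num
  set P := p.toReal with hP
  set q : ℝ := P / (P - 1) with hq
  have hpq : P.HolderConjugate q := Real.HolderConjugate.conjExponent h1
  have hq0 := hpq.symm.pos
  have hκ := kap_pos hp0 hq0
  have hkap : kappa P = kap P q := by
    unfold kappa kap
    rw [← hq, one_div]
  rw [hkap]
  have hP1 : 0 < P - 1 := by linarith
  obtain ⟨C, t₀, hC, ht₀, hkey⟩ := key hpq
  obtain ⟨C1, hC1⟩ := exists_good hpq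
  have hC10 := hC1.1
  obtain ⟨η, hη, hηt, hlt⟩ := exists_eta hpq hp2 (K := C + (P - 1))
    (t₀ := min t₀ (kap P q / (2 * (P * (1 + (C1 + 1)))))) (by positivity)
  set N : ℝ := (1 + η ^ q) ^ (1 / q) * (1 + ((P - 1) * η) ^ P) ^ (1 / P) with hN
  have hNpos : 0 < N := by positivity
  refine ⟨kap P q - N⁻¹ * (kap P q + (C + (P - 1)) * η ^ 2), ?_, ?_⟩
  · have : N⁻¹ * (kap P q + (C + (P - 1)) * η ^ 2) < N⁻¹ * (kap P q * N) := by gcongr
    have e : N⁻¹ * (kap P q * N) = kap P q := by field_simp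
    linarith
  intro 𝕜 _ Ω _ μ A B hA hB hAB hA0 hAt hB0 hBt
  rw [sub_sub_cancel]
  -- the operator
  set eA : Lp 𝕜 p μ := eV 𝕜 p hA hAt with heA
  set eB : Lp 𝕜 p μ := eV 𝕜 p hB hBt with heB
  set FA : Lp 𝕜 p μ →L[𝕜] 𝕜 := eF 𝕜 h1 htop hpq hA0 hAt with hFA
  set FB : Lp 𝕜 p μ →L[𝕜] 𝕜 := eF 𝕜 h1 htop hpq hB0 hBt with hFB
  have hAA : FA eA = 1 := eF_eV_self h1 htop hpq hA hA0 hAt
  have hBB : FB eB = 1 := eF_eV_self h1 htop hpq hB hB0 hBt
  have hABe : FA eB = 0 := eF_eV_disj h1 htop hpq hA hA0 hAt hB hBt hAB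
  have hBAe : FB eA = 0 := eF_eV_disj h1 htop hpq hB hB0 hBt hA hAt hAB.symm
  set G : Lp 𝕜 p μ →L[𝕜] 𝕜 := FA + (η : 𝕜) • FB with hG
  have hGx : ∀ x, G x = FA x + (η : 𝕜) * FB x := fun x => rfl
  set u : Lp 𝕜 p μ := eB - (((P - 1) * η : ℝ) : 𝕜) • eA with hu
  set T : Lp 𝕜 p μ →L[𝕜] Lp 𝕜 p μ := G.smulRight u with hT
  have hTx : ∀ x, T x = G x • u := fun x => rfl
  have hsum2 : ∀ a b : 𝕜, ‖a • eA + b • eB‖ ^ P = ‖a‖ ^ P + ‖b‖ ^ P :=
    fun a b => norm_two h1 htop hA hA0 hAt hB hB0 hBt hAB a b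
  have hunorm : ‖u‖ = (1 + ((P - 1) * η) ^ P) ^ (1 / P) := by
    have h3 : u = (-(((P - 1) * η : ℝ) : 𝕜)) • eA + (1 : 𝕜) • eB := by
      rw [hu, one_smul, neg_smul]; abel
    have h4 := hsum2 (-(((P - 1) * η : ℝ) : 𝕜)) 1
    rw [← h3, norm_one, Real.one_rpow, norm_neg, RCLike.norm_ofReal,
      abs_of_pos (mul_pos hP1 hη), add_comm] at h4
    rw [← h4, ← Real.rpow_mul (norm_nonneg _), mul_one_div_cancel hp0.ne', Real.rpow_one]
  have hupos : 0 < ‖u‖ := by rw [hunorm]; positivity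
  have hTnorm : N ≤ ‖T‖ := by
    set y : Lp 𝕜 p μ := (1 : 𝕜) • eA + ((η ^ (q - 1) : ℝ) : 𝕜) • eB with hy
    have hηq : 0 < η ^ (q - 1) := Real.rpow_pos_of_pos hη _
    have hqp : (q - 1) * P = q := hpq.symm.sub_one_mul_conj
    have h3 : ‖y‖ ^ P = 1 + η ^ q := by
      rw [hy, hsum2, RCLike.norm_ofReal, abs_of_pos hηq, norm_one, Real.one_rpow,
        ← Real.rpow_mul hη.le, hqp]
    have h4 : ‖y‖ = (1 + η ^ q) ^ (1 / P) := by
      rw [← h3, ← Real.rpow_mul (norm_nonneg _), mul_one_div_cancel hp0.ne', Real.rpow_one]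
    have hpos : 0 < 1 + η ^ q := by positivity
    have hyi : FA y = 1 := by
      rw [hy, map_add, map_smul, map_smul, hAA, hABe, smul_eq_mul, smul_eq_mul, mul_zero, add_zero,
        mul_one]
    have hyj : FB y = ((η ^ (q - 1) : ℝ) : 𝕜) := by
      rw [hy, map_add, map_smul, map_smul, hBB, hBAe, smul_eq_mul, smul_eq_mul, mul_zero, zero_add,
        mul_one]
    have h5 : G y = ((1 + η ^ q : ℝ) : 𝕜) := by
      rw [hGx, hyi, hyj, ← RCLike.ofReal_mul]
      have : η * η ^ (q - 1) = η ^ q := by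
        have h6 := Real.rpow_add hη 1 (q - 1)
        rw [Real.rpow_one] at h6
        rw [← h6]
        congr 1
        ring
      rw [this]
      push_cast
      ring
    have h6 : ‖T y‖ = (1 + η ^ q) * ‖u‖ := by
      rw [hTx, norm_smul, h5, RCLike.norm_ofReal, abs_of_pos hpos]
    have h7 := T.le_opNorm y
    rw [h6, h4] at h7
    have h8 : (1 + η ^ q) = (1 + η ^ q) ^ (1 / q) * (1 + η ^ q) ^ (1 / P) := by
      rw [← Real.rpow_add hpos]
      have : 1 / q + 1 / P = 1 := by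
        have := hpq.symm.inv_add_inv_eq_one
        simpa [one_div] using this
      rw [this, Real.rpow_one]
    have h9 : 0 < (1 + η ^ q) ^ (1 / P) := by positivity
    rw [hN, ← hunorm]
    refine le_of_mul_le_mul_right ?_ h9
    calc (1 + η ^ q) ^ (1 / q) * ‖u‖ * (1 + η ^ q) ^ (1 / P) =
        ((1 + η ^ q) ^ (1 / q) * (1 + η ^ q) ^ (1 / P)) * ‖u‖ := by ring
      _ = (1 + η ^ q) * ‖u‖ := by rw [← h8]
      _ ≤ _ := h7
  have hTpos : 0 < ‖T‖ := lt_of_lt_of_le hNpos hTnorm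
  -- normalize
  set c : 𝕜 := ((‖T‖⁻¹ : ℝ) : 𝕜) with hc
  have hcn : ‖c‖ = ‖T‖⁻¹ := by
    rw [hc, RCLike.norm_ofReal, abs_of_pos (inv_pos.2 hTpos)]
  have hc0 : c ≠ 0 := by
    rw [← norm_pos_iff, hcn]
    exact inv_pos.2 hTpos
  have hrad : numRadius (c • T) ≤ ‖T‖⁻¹ * (kap P q + (C + (P - 1)) * η ^ 2) := by
    apply Real.sSup_le
    · rintro _ ⟨x, f, hx, hf, hfx, rfl⟩
      rw [_root_.smul_apply, map_smul, norm_smul, hcn]
      refine mul_le_mul_of_nonneg_left ?_ (inv_pos.2 hTpos).le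
      rw [hTx, map_smul, smul_eq_mul, hGx, hu, map_sub, map_smul, smul_eq_mul]
      exact main_bound h1 htop hpq hC1 hC hkey hA hA0 hAt hB hB0 hBt hAB hη
        (hηt.trans (min_le_left _ _)) (hηt.trans (min_le_right _ _)) hx hf hfx
    · positivity
  have hmem : numRadius (c • T) ∈ {r : ℝ | ∃ T : Lp 𝕜 p μ →L[𝕜] Lp 𝕜 p μ,
      Module.finrank 𝕜 (LinearMap.range (T : Lp 𝕜 p μ →ₗ[𝕜] Lp 𝕜 p μ)) = 1 ∧
      ‖T‖ = 1 ∧ r = numRadius T} := by
    refine ⟨c • T, ?_, ?_, rfl⟩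
    · have hrange : LinearMap.range ((c • T : Lp 𝕜 p μ →L[𝕜] Lp 𝕜 p μ) :
          Lp 𝕜 p μ →ₗ[𝕜] Lp 𝕜 p μ) = Submodule.span 𝕜 {u} := by
        ext z
        rw [LinearMap.mem_range, Submodule.mem_span_singleton]
        constructor
        · rintro ⟨x, rfl⟩
          exact ⟨c * G x, by simp [hTx, mul_smul]⟩
        · rintro ⟨a, rfl⟩
          refine ⟨(a * c⁻¹) • eA, ?_⟩
          have hG1 : G eA = 1 := by
            rw [hGx, hAA, hBAe, mul_zero, add_zero]
          show (c • T) ((a * c⁻¹) • eA) = a • u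
          rw [_root_.smul_apply, hTx, map_smul, hG1, smul_eq_mul, mul_one, smul_smul,
            mul_left_comm, mul_inv_cancel₀ hc0, mul_one]
      rw [hrange]
      exact finrank_span_singleton (norm_pos_iff.1 hupos)
    · rw [norm_smul, hcn, inv_mul_cancel₀ hTpos.ne']
  have hbdd : BddBelow {r : ℝ | ∃ T : Lp 𝕜 p μ →L[𝕜] Lp 𝕜 p μ,
      Module.finrank 𝕜 (LinearMap.range (T : Lp 𝕜 p μ →ₗ[𝕜] Lp 𝕜 p μ)) = 1 ∧
      ‖T‖ = 1 ∧ r = numRadius T} := by
    refine ⟨0, ?_⟩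
    rintro _ ⟨S, _, _, rfl⟩
    apply Real.sSup_nonneg
    rintro _ ⟨x, f, _, _, _, rfl⟩
    exact norm_nonneg _
  calc rankOneIndex 𝕜 (Lp 𝕜 p μ) ≤ numRadius (c • T) := csInf_le hbdd hmem
    _ ≤ ‖T‖⁻¹ * (kap P q + (C + (P - 1)) * η ^ 2) := hrad
    _ ≤ _ := by gcongr

/-- If `L_p(μ)` is not of dimension at most one, there are two disjoint measurable sets of finite
positive measure. -/
theorem exists_sets (𝕜 : Type u) [RCLike 𝕜] {Ω : Type v} [MeasurableSpace Ω] {μ : Measure Ω}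
    {p : ℝ≥0∞} [Fact (1 ≤ p)] (htop : p ≠ ∞) (hr : 1 < Module.rank 𝕜 (Lp 𝕜 p μ)) :
    ∃ A B : Set Ω, MeasurableSet A ∧ MeasurableSet B ∧ Disjoint A B ∧
      μ A ≠ 0 ∧ μ A ≠ ∞ ∧ μ B ≠ 0 ∧ μ B ≠ ∞ := by
  by_contra hcon
  push Not at hcon
  -- all indicators lie on one line
  obtain ⟨v, hv⟩ : ∃ v : Lp 𝕜 p μ, ∀ (c : 𝕜) {s : Set Ω} (hs : MeasurableSet s) (hμs : μ s ≠ ∞),
      indicatorConstLp p hs hμs c ∈ Submodule.span 𝕜 {v} := by
    by_cases hE : ∃ E : Set Ω, MeasurableSet E ∧ μ E ≠ 0 ∧ μ E ≠ ∞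
    · obtain ⟨E, hEm, hE0, hEt⟩ := hE
      refine ⟨indicatorConstLp p hEm hEt 1, fun c s hs hμs => ?_⟩
      have k1 : μ (s \ E) = 0 := by
        by_contra h0
        exact (ne_top_of_le_ne_top hμs (measure_mono Set.sdiff_subset))
          (hcon E (s \ E) hEm (hs.diff hEm) Set.disjoint_sdiff_right hE0 hEt h0)
      by_cases k2 : μ (s ∩ E) = 0
      · have k3 : μ s = 0 := by
          have := measure_inter_add_sdiff (μ := μ) s hEm
          rw [k1, k2, add_zero] at this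
          exact this.symm
        have : indicatorConstLp p hs hμs c = 0 := by
          rw [← indicatorConstLp_empty (p := p) (μ := μ) (c := c)]
          apply Lp.ext
          refine indicatorConstLp_coeFn.trans (EventuallyEq.trans ?_ indicatorConstLp_coeFn.symm)
          have : s =ᵐ[μ] (∅ : Set Ω) := ae_eq_empty.2 k3
          exact indicator_ae_eq_of_ae_eq_set this
        rw [this]
        exact Submodule.zero_mem _
      · have k4 : μ (E \ s) = 0 := by
          by_contra h0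
          exact (ne_top_of_le_ne_top hEt (measure_mono Set.sdiff_subset))
            (hcon (s ∩ E) (E \ s) (hs.inter hEm) (hEm.diff hs)
            (Set.disjoint_left.2 fun ω h5 h6 => h6.2 h5.1) k2
            (ne_top_of_le_ne_top hμs (measure_mono Set.inter_subset_left)) h0)
        have k5 : s =ᵐ[μ] E := by
          rw [ae_eq_set]
          exact ⟨k1, k4⟩
        rw [Submodule.mem_span_singleton]
        refine ⟨c, ?_⟩
        apply Lp.ext
        refine (Lp.coeFn_smul _ _).trans ?_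
        have e1 : (indicatorConstLp p hEm hEt (1 : 𝕜) : Lp 𝕜 p μ) =ᵐ[μ] E.indicator fun _ => (1 : 𝕜) :=
          indicatorConstLp_coeFn
        have e2 : (indicatorConstLp p hs hμs c : Lp 𝕜 p μ) =ᵐ[μ] s.indicator fun _ => c :=
          indicatorConstLp_coeFn
        have e3 : (s.indicator fun _ => c) =ᵐ[μ] E.indicator fun _ => c :=
          indicator_ae_eq_of_ae_eq_set k5
        filter_upwards [e1, e2, e3] with ω a1 a2 a3
        rw [Pi.smul_apply, a1, a2, a3]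
        by_cases h7 : ω ∈ E
        · rw [Set.indicator_of_mem h7, Set.indicator_of_mem h7, smul_eq_mul, mul_one]
        · rw [Set.indicator_of_notMem h7, Set.indicator_of_notMem h7, smul_zero]
    · push Not at hE
      refine ⟨0, fun c s hs hμs => ?_⟩
      have k3 : μ s = 0 := by
        by_contra h0
        exact hμs (hE s hs h0)
      have : indicatorConstLp p hs hμs c = 0 := by
        rw [← indicatorConstLp_empty (p := p) (μ := μ) (c := c)]
        apply Lp.ext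
        refine indicatorConstLp_coeFn.trans (EventuallyEq.trans ?_ indicatorConstLp_coeFn.symm)
        have : s =ᵐ[μ] (∅ : Set Ω) := ae_eq_empty.2 k3
        exact indicator_ae_eq_of_ae_eq_set this
      rw [this]
      exact Submodule.zero_mem _
  have hall : ∀ f : Lp 𝕜 p μ, f ∈ Submodule.span 𝕜 {v} := by
    intro f
    refine Lp.induction htop (motive := fun f => f ∈ Submodule.span 𝕜 {v}) ?_ ?_ ?_ f
    · intro c s hs hμs
      exact hv c hs hμs.ne
    · intro f g hf hg _ h3 h4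
      exact Submodule.add_mem _ h3 h4
    · exact (Submodule.span 𝕜 {v}).closed_of_finiteDimensional
  have htopeq : Submodule.span 𝕜 {v} = ⊤ := Submodule.eq_top_iff'.2 hall
  have h8 : Module.rank 𝕜 (Lp 𝕜 p μ) ≤ 1 := by
    rw [← rank_top 𝕜 (Lp 𝕜 p μ), ← htopeq]
    exact (rank_span_le _).trans (by simp)
  exact absurd hr (not_lt.2 h8)

end Pool.Agent.Y825.RK
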