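import Pool.Agent.Y825.RK.Prob
import Pool.Agent.H398R3.RankOneB

open MeasureTheory Filter Topology
open scoped ComplexConjugate ENNReal

namespace Pool.Agent.Y825.RK

variable {𝕜 : Type*} [RCLike 𝕜] {Ω : Type*} [MeasurableSpace Ω] {μ : Measure Ω}
  {p : ℝ≥0∞}

lemma integrable_rpow (h1 : 1 < p.toReal) (htop : p ≠ ∞) (x : Lp 𝕜 p μ) :
    Integrable (fun ω => ‖x ω‖ ^ p.toReal) μ := by
  have h0 : p ≠ 0 := by
    rintro rfl
    simp at h1
    linarith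
  exact (Lp.memLp x).integrable_norm_rpow h0 htop

lemma norm_rpow (h1 : 1 < p.toReal) (htop : p ≠ ∞) (x : Lp 𝕜 p μ) :
    ‖x‖ ^ p.toReal = ∫ ω, ‖x ω‖ ^ p.toReal ∂μ := by
  have h0 : p ≠ 0 := by
    rintro rfl
    simp at h1
    linarith
  have hnn : 0 ≤ ∫ ω, ‖x ω‖ ^ p.toReal ∂μ := integral_nonneg fun ω => by positivity
  rw [Lp.norm_def, (Lp.memLp x).eLpNorm_eq_integral_rpow_norm h0 htop,
    ENNReal.toReal_ofReal (by positivity), ← Real.rpow_mul hnn, inv_mul_cancel₀ (by linarith),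
    Real.rpow_one]

lemma integrable_sum_rpow (h1 : 1 < p.toReal) (htop : p ≠ ∞) (x g : Lp 𝕜 p μ) :
    Integrable (fun ω => (‖x ω‖ + ‖g ω‖) ^ p.toReal) μ := by
  have h0 : p ≠ 0 := by
    rintro rfl
    simp at h1
    linarith
  have h2 : MemLp (fun ω => ‖x ω‖ + ‖g ω‖) p μ := (Lp.memLp x).norm.add (Lp.memLp g).norm
  have h3 := h2.integrable_norm_rpow h0 htop
  refine h3.congr (ae_of_all _ fun ω => ?_)
  show ‖‖x ω‖ + ‖g ω‖‖ ^ p.toReal = _
  rw [Real.norm_of_nonneg (by positivity)]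

lemma integrable_J_mul (h1 : 1 < p.toReal) (htop : p ≠ ∞) (x g : Lp 𝕜 p μ) :
    Integrable (fun ω => J p.toReal (x ω) * g ω) μ := by
  refine Integrable.mono' (integrable_sum_rpow h1 htop x g) ?_ (ae_of_all _ fun ω => ?_)
  · exact (((measurable_J p.toReal).comp_aemeasurable
      (Lp.aestronglyMeasurable x).aemeasurable).aestronglyMeasurable).mul
      (Lp.aestronglyMeasurable g)
  · rw [norm_mul, norm_J h1]
    have hx := norm_nonneg (x ω)
    have hg := norm_nonneg (g ω)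
    have e : (‖x ω‖ + ‖g ω‖) ^ p.toReal = (‖x ω‖ + ‖g ω‖) ^ (p.toReal - 1) * (‖x ω‖ + ‖g ω‖) := by
      rcases (add_nonneg hx hg).eq_or_lt with h | h
      · rw [← h, mul_zero, Real.zero_rpow (by linarith)]
      · rw [← Real.rpow_add_one h.ne']
        congr 1
        ring
    rw [e]
    gcongr
    · linarith
    · linarith

variable [Fact (1 ≤ p)]

lemma norm_add_smul_rpow (h1 : 1 < p.toReal) (htop : p ≠ ∞) (x g : Lp 𝕜 p μ) (c : 𝕜) :
    ‖x + c • g‖ ^ p.toReal = ∫ ω, ‖x ω + c * g ω‖ ^ p.toReal ∂μ := by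
  rw [norm_rpow h1 htop]
  apply integral_congr_ae
  filter_upwards [Lp.coeFn_add x (c • g), Lp.coeFn_smul c g] with ω h2 h3
  rw [h2]
  simp only [Pi.add_apply, h3, Pi.smul_apply, smul_eq_mul]

/-- Derivative of the `p`-th power of the norm along a line. -/
lemma hasDerivAt_F (h1 : 1 < p.toReal) (htop : p ≠ ∞) (x g : Lp 𝕜 p μ) :
    HasDerivAt (fun t : ℝ => ∫ ω, ‖x ω + (t : 𝕜) * g ω‖ ^ p.toReal ∂μ)
      (∫ ω, p.toReal * (‖x ω‖ ^ (p.toReal - 2) * RCLike.re (conj (x ω) * g ω)) ∂μ) 0 := by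
  set P := p.toReal with hP
  have hmx := (Lp.aestronglyMeasurable x)
  have hmg := (Lp.aestronglyMeasurable g)
  have key := hasDerivAt_integral_of_dominated_loc_of_deriv_le (μ := μ) (𝕜 := ℝ)
    (F := fun (t : ℝ) ω => ‖x ω + (t : 𝕜) * g ω‖ ^ P)
    (F' := fun (t : ℝ) ω => P * (‖x ω + (t : 𝕜) * g ω‖ ^ (P - 2) *
      RCLike.re (conj (x ω + (t : 𝕜) * g ω) * g ω)))
    (x₀ := 0) (s := Metric.ball 0 1) (bound := fun ω => P * (‖x ω‖ + ‖g ω‖) ^ P)
    (Metric.ball_mem_nhds 0 one_pos) ?_ ?_ ?_ ?_ ?_ ?_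
  · have := key.2
    simpa using this
  · refine Eventually.of_forall fun t => ?_
    exact ((hmx.add (hmg.const_mul (t : 𝕜))).norm.aemeasurable.pow_const P).aestronglyMeasurable
  · simpa using integrable_rpow h1 htop x
  · have : AEMeasurable (fun ω => P * (‖x ω + ((0 : ℝ) : 𝕜) * g ω‖ ^ (P - 2) *
        RCLike.re (conj (x ω + ((0 : ℝ) : 𝕜) * g ω) * g ω))) μ := by
      have hm := hmx.add (hmg.const_mul (((0 : ℝ) : 𝕜)))
      refine AEMeasurable.const_mul (AEMeasurable.mul ?_ ?_) P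
      · exact hm.norm.aemeasurable.pow_const _
      · refine RCLike.measurable_re.comp_aemeasurable (AEMeasurable.mul ?_ hmg.aemeasurable)
        exact RCLike.continuous_conj.measurable.comp_aemeasurable hm.aemeasurable
    exact this.aestronglyMeasurable
  · refine ae_of_all _ fun ω t ht => ?_
    have ht1 : |t| < 1 := by simpa using ht
    set a := x ω + (t : 𝕜) * g ω with ha
    have hna : ‖a‖ ≤ ‖x ω‖ + ‖g ω‖ := by
      calc ‖a‖ ≤ ‖x ω‖ + ‖(t : 𝕜) * g ω‖ := norm_add_le _ _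
        _ = ‖x ω‖ + |t| * ‖g ω‖ := by rw [norm_mul, RCLike.norm_ofReal]
        _ ≤ ‖x ω‖ + 1 * ‖g ω‖ := by gcongr
        _ = _ := by rw [one_mul]
    have hP0 : 0 < P := by linarith
    rw [Real.norm_eq_abs, abs_mul, abs_of_pos hP0]
    apply mul_le_mul_of_nonneg_left _ hP0.le
    rw [abs_mul, abs_of_nonneg (by positivity : 0 ≤ ‖a‖ ^ (P - 2))]
    have h2 : |RCLike.re (conj a * g ω)| ≤ ‖a‖ * ‖g ω‖ := by
      refine (RCLike.abs_re_le_norm _).trans ?_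
      rw [norm_mul, RCLike.norm_conj]
    have h3 : ‖a‖ ^ (P - 2) * ‖a‖ = ‖a‖ ^ (P - 1) := by
      rcases eq_or_ne a 0 with h | h
      · rw [h, norm_zero, mul_zero, Real.zero_rpow (by linarith : P - 1 ≠ 0)]
      · rw [← Real.rpow_add_one (norm_ne_zero_iff.2 h)]
        congr 1
        ring
    have hx := norm_nonneg (x ω)
    have hg := norm_nonneg (g ω)
    have e : (‖x ω‖ + ‖g ω‖) ^ P = (‖x ω‖ + ‖g ω‖) ^ (P - 1) * (‖x ω‖ + ‖g ω‖) := by
      rcases (add_nonneg hx hg).eq_or_lt with h | h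
      · rw [← h, mul_zero, Real.zero_rpow (by linarith)]
      · rw [← Real.rpow_add_one h.ne']
        congr 1
        ring
    calc ‖a‖ ^ (P - 2) * |RCLike.re (conj a * g ω)| ≤ ‖a‖ ^ (P - 2) * (‖a‖ * ‖g ω‖) := by gcongr
      _ = ‖a‖ ^ (P - 1) * ‖g ω‖ := by rw [← mul_assoc, h3]
      _ ≤ (‖x ω‖ + ‖g ω‖) ^ (P - 1) * (‖x ω‖ + ‖g ω‖) := by
          have h6 : ‖g ω‖ ≤ ‖x ω‖ + ‖g ω‖ := by linarith
          have h7 : ‖a‖ ^ (P - 1) ≤ (‖x ω‖ + ‖g ω‖) ^ (P - 1) :=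
            Real.rpow_le_rpow (norm_nonneg _) hna (by linarith)
          exact mul_le_mul h7 h6 hg (by positivity)
      _ = _ := e.symm
  · exact (integrable_sum_rpow h1 htop x g).const_mul P
  · refine ae_of_all _ fun ω t _ => ?_
    have h2 := Pool.Agent.H398R3.RO.hasDerivAt_norm_line (x ω + (t : 𝕜) * g ω) (g ω) h1
    have h3 : HasDerivAt (fun s : ℝ => s - t) 1 t := (hasDerivAt_id t).sub_const t
    have h4 : HasDerivAt (fun t_1 : ℝ => ‖x ω + (t : 𝕜) * g ω + (t_1 : 𝕜) * g ω‖ ^ P)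
      (P * (‖x ω + (t : 𝕜) * g ω‖ ^ (P - 2) * RCLike.re (conj (x ω + (t : 𝕜) * g ω) * g ω)))
      (t - t) := by rw [sub_self]; exact h2
    have h5 := HasDerivAt.comp (h := fun s : ℝ => s - t)
      (h₂ := fun t_1 : ℝ => ‖x ω + (t : 𝕜) * g ω + (t_1 : 𝕜) * g ω‖ ^ P) t h4 h3
    rw [mul_one] at h5
    refine h5.congr_of_eventuallyEq (Eventually.of_forall fun s => ?_)
    show ‖x ω + (s : 𝕜) * g ω‖ ^ P = ‖x ω + (t : 𝕜) * g ω + (((s - t : ℝ)) : 𝕜) * g ω‖ ^ P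
    congr 2
    push_cast
    ring

/-- The norming functional of a unit vector of `L_p`. -/
theorem norming (h1 : 1 < p.toReal) (htop : p ≠ ∞) {x : Lp 𝕜 p μ} {f : Lp 𝕜 p μ →L[𝕜] 𝕜}
    (hx : ‖x‖ = 1) (hf : ‖f‖ = 1) (hfx : f x = 1) (g : Lp 𝕜 p μ) :
    f g = ∫ ω, J p.toReal (x ω) * g ω ∂μ := by
  have hp0 : 0 < p.toReal := by linarith
  set P := p.toReal with hP
  have key : ∀ g : Lp 𝕜 p μ, RCLike.re (f g) =
      ∫ ω, ‖x ω‖ ^ (P - 2) * RCLike.re (conj (x ω) * g ω) ∂μ := by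
    intro g
    set ρ : ℝ := RCLike.re (f g) with hρ
    set ψ : ℝ → ℝ := fun t => (∫ ω, ‖x ω + (t : 𝕜) * g ω‖ ^ P ∂μ) - (1 + t * ρ) ^ P with hψ
    have hψ0 : ψ 0 = 0 := by
      have h2 := norm_rpow h1 htop x
      rw [hx, Real.one_rpow] at h2
      simp only [hψ]
      simp only [RCLike.ofReal_zero, zero_mul, add_zero, Real.one_rpow]
      linarith
    have hnonneg : ∀ᶠ t : ℝ in 𝓝 0, ψ 0 ≤ ψ t := by
      have hc : Tendsto (fun t : ℝ => 1 + t * ρ) (𝓝 0) (𝓝 (1 + 0 * ρ)) :=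
        ((continuous_const.add (continuous_id.mul continuous_const)).tendsto 0)
      rw [zero_mul, add_zero] at hc
      have he : ∀ᶠ t : ℝ in 𝓝 0, 0 < 1 + t * ρ := hc.eventually (lt_mem_nhds one_pos)
      filter_upwards [he] with t ht
      rw [hψ0]
      have h2 : 1 + t * ρ ≤ ‖x + (t : 𝕜) • g‖ := by
        calc 1 + t * ρ = RCLike.re (f (x + (t : 𝕜) • g)) := by
              rw [map_add, map_smul, hfx, map_add, smul_eq_mul, RCLike.re_ofReal_mul,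
                RCLike.one_re]
          _ ≤ ‖f (x + (t : 𝕜) • g)‖ := RCLike.re_le_norm _
          _ ≤ ‖f‖ * ‖x + (t : 𝕜) • g‖ := f.le_opNorm _
          _ = _ := by rw [hf, one_mul]
      have h3 : (1 + t * ρ) ^ P ≤ ‖x + (t : 𝕜) • g‖ ^ P :=
        Real.rpow_le_rpow ht.le h2 hp0.le
      rw [norm_add_smul_rpow h1 htop] at h3
      show 0 ≤ (∫ ω, ‖x ω + (t : 𝕜) * g ω‖ ^ P ∂μ) - (1 + t * ρ) ^ P
      linarith
    have hd : HasDerivAt ψ ((∫ ω, P * (‖x ω‖ ^ (P - 2) * RCLike.re (conj (x ω) * g ω)) ∂μ)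
        - P * ρ) 0 := by
      have h2 := hasDerivAt_F h1 htop x g
      have h3 : HasDerivAt (fun t : ℝ => 1 + t * ρ) ρ 0 := by
        simpa using ((hasDerivAt_id (0 : ℝ)).mul_const ρ).const_add 1
      have h4 := h3.rpow_const (p := P) (Or.inl (by simp))
      have h5 := h2.sub h4
      refine h5.congr_deriv ?_
      simp
      ring
    have hmin : IsLocalMin ψ 0 := hnonneg
    have h5 := hmin.hasDerivAt_eq_zero hd
    rw [integral_const_mul] at h5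
    have h6 : P * ρ = P * ∫ ω, ‖x ω‖ ^ (P - 2) * RCLike.re (conj (x ω) * g ω) ∂μ := by linarith
    exact mul_left_cancel₀ hp0.ne' h6
  set ξ := f g with hξ
  set η : 𝕜 := ∫ ω, J P (x ω) * g ω ∂μ with hη
  have h7 : ∀ c : 𝕜, RCLike.re (c * (ξ - η)) = 0 := by
    intro c
    have h8 := key (c • g)
    rw [map_smul, smul_eq_mul, ← hξ] at h8
    have h9 : RCLike.re (c * η) = ∫ ω, ‖x ω‖ ^ (P - 2) * RCLike.re (conj (x ω) * (c • g) ω) ∂μ := by
      rw [hη, ← integral_const_mul, ← integral_re ((integrable_J_mul h1 htop x g).const_mul c)]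
      apply integral_congr_ae
      filter_upwards [Lp.coeFn_smul c g] with ω h3
      rw [h3, Pi.smul_apply, smul_eq_mul, ← RCLike.re_ofReal_mul]
      congr 1
      rw [J]
      ring
    rw [mul_sub, map_sub, h8, h9, sub_self]
  have h10 := h7 (conj (ξ - η))
  rw [RCLike.conj_mul] at h10
  have h11 : ‖ξ - η‖ ^ 2 = 0 := by
    have : RCLike.re (((‖ξ - η‖ : ℝ) : 𝕜) ^ 2) = ‖ξ - η‖ ^ 2 := by
      rw [← RCLike.ofReal_pow, RCLike.ofReal_re]
    rw [← this, h10]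
  have h12 : ξ - η = 0 := norm_eq_zero.1 (pow_eq_zero_iff two_ne_zero |>.1 h11)
  exact sub_eq_zero.1 h12

end Pool.Agent.Y825.RK
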