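import Mathlib

open Real

namespace Pool.Agent.Y825.RK

/-- `e^x - 1 - x`. -/
lemma E_nonneg (x : ℝ) : 0 ≤ exp x - 1 - x := by
  have := Real.add_one_le_exp x
  linarith

lemma E_lower {x : ℝ} (hx : 0 ≤ x) : x ^ 2 / 2 ≤ exp x - 1 - x := by
  have := Real.quadratic_le_exp_of_nonneg hx
  linarith

lemma E_lower' {x x0 : ℝ} (h0 : 0 < x0) (hx : x0 ≤ x) :
    (x0 ^ 2 / 2) / (1 + x0 + x0 ^ 2 / 2) * exp x ≤ exp x - 1 - x := by
  have h1 := Real.quadratic_le_exp_of_nonneg (h0.le.trans hx)
  have hd : 0 < 1 + x0 + x0 ^ 2 / 2 := by positivity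
  set c := (x0 ^ 2 / 2) / (1 + x0 + x0 ^ 2 / 2) with hc
  have hc1 : c < 1 := by
    rw [hc, div_lt_one hd]
    linarith
  have hxp : 0 < x := by linarith
  have h2 : c * (1 + x + x ^ 2 / 2) ≤ x ^ 2 / 2 := by
    rw [hc, div_mul_eq_mul_div, div_le_iff₀ hd]
    have e1 : x0 ^ 2 ≤ x ^ 2 := by gcongr
    have e2 : x0 ^ 2 * x ≤ x ^ 2 * x0 := by
      have : 0 ≤ x0 * x * (x - x0) := by
        apply mul_nonneg (by positivity)
        linarith
      nlinarith
    nlinarith
  have h3 : (1 - c) * (1 + x + x ^ 2 / 2) ≤ (1 - c) * exp x := by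
    apply mul_le_mul_of_nonneg_left h1
    linarith
  nlinarith

/-- `φ₂` in exponential form. -/
lemma phi2_exp {p q : ℝ} (hpq : p.HolderConjugate q) (t : ℝ) :
    (exp t) ^ p / p + 1 / q - exp t =
      exp t * ((exp ((p - 1) * t) - 1 - (p - 1) * t) / p + (exp (-t) - 1 - (-t)) / q) := by
  have hp := hpq.pos
  have hq := hpq.symm.pos
  have h1 : (exp t) ^ p = exp t * exp ((p - 1) * t) := by
    rw [← Real.exp_mul, ← Real.exp_add]
    congr 1
    ring
  have h2 : exp t * exp (-t) = 1 := by rw [← Real.exp_add]; simp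
  have hsum : 1 / p + 1 / q = 1 := by
    have := hpq.inv_add_inv_eq_one
    simpa [one_div] using this
  have h3 : (p - 1) / p = 1 / q := by
    rw [sub_div, div_self hp.ne']
    linarith
  rw [h1]
  have h4 : exp t * ((exp ((p - 1) * t) - 1 - (p - 1) * t) / p + (exp (-t) - 1 - (-t)) / q)
      = exp t * exp ((p - 1) * t) / p + (exp t * exp (-t)) / q - exp t * (1 / p + 1 / q)
        - exp t * t * ((p - 1) / p - 1 / q) := by
    field_simp
    ring
  rw [h4, h2, hsum, h3]
  ring

/-- `φ₁` in exponential form. -/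
lemma phi1_exp {p q : ℝ} (hpq : p.HolderConjugate q) (t : ℝ) :
    (exp t) ^ p / q + 1 / p - (exp t) ^ (p - 1) =
      exp ((p - 1) * t) * ((exp t - 1 - t) / q + (exp (-((p - 1) * t)) - 1 - (-((p - 1) * t))) / p) := by
  have hp := hpq.pos
  have hq := hpq.symm.pos
  have h1 : (exp t) ^ p = exp t * exp ((p - 1) * t) := by
    rw [← Real.exp_mul, ← Real.exp_add]
    congr 1
    ring
  have h1' : (exp t) ^ (p - 1) = exp ((p - 1) * t) := by
    rw [← Real.exp_mul]
    congr 1
    ring
  have h2 : exp ((p - 1) * t) * exp (-((p - 1) * t)) = 1 := by rw [← Real.exp_add]; simp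
  have hsum : 1 / p + 1 / q = 1 := by
    have := hpq.inv_add_inv_eq_one
    simpa [one_div] using this
  have h3 : (p - 1) / p = 1 / q := by
    rw [sub_div, div_self hp.ne']
    linarith
  rw [h1, h1']
  have h4 : exp ((p - 1) * t) * ((exp t - 1 - t) / q +
      (exp (-((p - 1) * t)) - 1 - (-((p - 1) * t))) / p)
      = exp t * exp ((p - 1) * t) / q + (exp ((p - 1) * t) * exp (-((p - 1) * t))) / p
        - exp ((p - 1) * t) * (1 / p + 1 / q)
        + exp ((p - 1) * t) * t * ((p - 1) / p - 1 / q) := by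
    field_simp
    ring
  rw [h4, h2, hsum, h3]
  ring

/-- Far from `1` the Young deficiency is of the order of `1 + r ^ p`. -/
lemma far {p q : ℝ} (hpq : p.HolderConjugate q) {t0 : ℝ} (ht0 : 0 < t0) :
    ∃ c : ℝ, 0 < c ∧ ∀ t : ℝ, t0 ≤ |t| →
      c * (1 + (exp t) ^ p) ≤ (exp t) ^ p / p + 1 / q - exp t := by
  have hp := hpq.pos
  have hq := hpq.symm.pos
  have hp1 : 0 < p - 1 := sub_pos.2 hpq.lt
  set c1 : ℝ := (((p - 1) * t0) ^ 2 / 2) / (1 + (p - 1) * t0 + ((p - 1) * t0) ^ 2 / 2) with hc1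
  set c2 : ℝ := (t0 ^ 2 / 2) / (1 + t0 + t0 ^ 2 / 2) with hc2
  have hc1p : 0 < c1 := by positivity
  have hc2p : 0 < c2 := by positivity
  refine ⟨min (c1 / (2 * p)) (c2 / (2 * q)), by positivity, fun t ht => ?_⟩
  rw [phi2_exp hpq]
  have hE1 := E_nonneg ((p - 1) * t)
  have hE2 := E_nonneg (-t)
  have het := Real.exp_pos t
  rcases abs_cases t with ⟨h1, h2⟩ | ⟨h1, h2⟩
  · rw [h1] at ht
    have h3 := E_lower' (x0 := (p - 1) * t0) (by positivity) (x := (p - 1) * t) (by gcongr)
    rw [← hc1] at h3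
    have h4 : 1 ≤ exp t := Real.one_le_exp h2
    have h5 : exp t * exp ((p - 1) * t) = (exp t) ^ p := by
      rw [← Real.exp_mul, ← Real.exp_add]
      congr 1
      ring
    have h6 : 1 ≤ (exp t) ^ p := Real.one_le_rpow h4 hp.le
    calc min (c1 / (2 * p)) (c2 / (2 * q)) * (1 + (exp t) ^ p)
        ≤ c1 / (2 * p) * ((exp t) ^ p + (exp t) ^ p) := by
          gcongr
          exact min_le_left _ _
      _ = exp t * (c1 * exp ((p - 1) * t) / p) := by
          rw [← h5]
          field_simp
          ring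
      _ ≤ exp t * ((exp ((p - 1) * t) - 1 - (p - 1) * t) / p) := by gcongr
      _ ≤ _ := by
          apply mul_le_mul_of_nonneg_left _ het.le
          have : 0 ≤ (exp (-t) - 1 - (-t)) / q := by positivity
          linarith
  · rw [h1] at ht
    have h3 := E_lower' (x0 := t0) ht0 (x := -t) ht
    rw [← hc2] at h3
    have h4 : exp t ≤ 1 := Real.exp_le_one_iff.2 h2.le
    have h5 : exp t * exp (-t) = 1 := by rw [← Real.exp_add]; simp
    have h6 : (exp t) ^ p ≤ 1 := Real.rpow_le_one het.le h4 hp.le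
    calc min (c1 / (2 * p)) (c2 / (2 * q)) * (1 + (exp t) ^ p)
        ≤ c2 / (2 * q) * (1 + 1) := by
          gcongr
          exact min_le_right _ _
      _ = exp t * (c2 * exp (-t) / q) := by
          have : exp t * (c2 * exp (-t) / q) = c2 * (exp t * exp (-t)) / q := by ring
          rw [this, h5]
          field_simp
          ring
      _ ≤ exp t * ((exp (-t) - 1 - (-t)) / q) := by gcongr
      _ ≤ _ := by
          apply mul_le_mul_of_nonneg_left _ het.le
          have : 0 ≤ (exp ((p - 1) * t) - 1 - (p - 1) * t) / p := by positivity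
          linarith

/-- Near `1` the Young deficiency is at least of second order. -/
lemma near {p q : ℝ} (hpq : p.HolderConjugate q) {t : ℝ} (ht : |t| ≤ 1) :
    exp (-1) * min ((p - 1) ^ 2 / (2 * p)) (1 / (2 * q)) * t ^ 2 ≤
      (exp t) ^ p / p + 1 / q - exp t := by
  have hp := hpq.pos
  have hq := hpq.symm.pos
  have hp1 : 0 < p - 1 := sub_pos.2 hpq.lt
  rw [phi2_exp hpq]
  have hE1 := E_nonneg ((p - 1) * t)
  have hE2 := E_nonneg (-t)
  have het : exp (-1) ≤ exp t := Real.exp_le_exp.2 (by have := (abs_le.1 ht).1; linarith)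
  rw [mul_assoc]
  have hc0 : 0 < min ((p - 1) ^ 2 / (2 * p)) (1 / (2 * q)) := by positivity
  apply mul_le_mul het _ (by positivity) (Real.exp_pos t).le
  rcases le_total 0 t with h | h
  · have h3 := E_lower (x := (p - 1) * t) (by positivity)
    calc min ((p - 1) ^ 2 / (2 * p)) (1 / (2 * q)) * t ^ 2 ≤ (p - 1) ^ 2 / (2 * p) * t ^ 2 := by
          gcongr
          exact min_le_left _ _
      _ = (((p - 1) * t) ^ 2 / 2) / p := by field_simp
      _ ≤ (exp ((p - 1) * t) - 1 - (p - 1) * t) / p := by gcongr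
      _ ≤ _ := by
          have : 0 ≤ (exp (-t) - 1 - (-t)) / q := by positivity
          linarith
  · have h3 := E_lower (x := -t) (by linarith)
    calc min ((p - 1) ^ 2 / (2 * p)) (1 / (2 * q)) * t ^ 2 ≤ 1 / (2 * q) * t ^ 2 := by
          gcongr
          exact min_le_right _ _
      _ = ((-t) ^ 2 / 2) / q := by field_simp
      _ ≤ (exp (-t) - 1 - (-t)) / q := by gcongr
      _ ≤ _ := by
          have : 0 ≤ (exp ((p - 1) * t) - 1 - (p - 1) * t) / p := by positivity
          linarith

lemma young_nonneg {p q : ℝ} (hpq : p.HolderConjugate q) {r : ℝ} (hr : 0 ≤ r) :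
    0 ≤ r ^ p / p + 1 / q - r := by
  have h := Real.young_inequality_of_nonneg hr zero_le_one hpq
  simp only [mul_one, Real.one_rpow] at h
  linarith

/-- The pointwise inequality. -/
theorem point {p q : ℝ} (hpq : p.HolderConjugate q) : ∃ C : ℝ, 0 ≤ C ∧
    ∀ r c s : ℝ, 0 ≤ r → c ^ 2 + s ^ 2 = r ^ 2 →
      |r ^ p / q + 1 / p - r ^ (p - 2) * c| + |r ^ (p - 2) * s - s| ≤
        C * (r ^ p / p + 1 / q - c) := by
  have hp := hpq.pos
  have hq := hpq.symm.pos
  have hp1 : 0 < p - 1 := sub_pos.2 hpq.lt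
  set t0 : ℝ := min (1 / 2) (1 / (2 * (p - 1))) with ht0
  have ht0p : 0 < t0 := by positivity
  obtain ⟨c2, hc2, hfar⟩ := far hpq ht0p
  set c1 : ℝ := exp (-1) * min ((p - 1) ^ 2 / (2 * p)) (1 / (2 * q)) with hc1
  have hc1p : 0 < c1 := by positivity
  set K1 : ℝ := exp 1 * (1 / q + (p - 1) ^ 2 / p) + 2 * (p - 2) ^ 2 with hK1
  have hK1p : 0 < K1 := by positivity
  refine ⟨K1 / c1 + (exp 2 + exp 1) + 4 / c2 + q / p, by positivity, ?_⟩
  intro r c s hr hrcs
  have hcr : |c| ≤ r := abs_le_of_sq_le_sq (by nlinarith [sq_nonneg s]) hr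
  have hsr : |s| ≤ r := abs_le_of_sq_le_sq (by nlinarith [sq_nonneg c]) hr
  have hcr' := (abs_le.1 hcr).2
  have hcr'' := (abs_le.1 hcr).1
  rcases hr.eq_or_lt with h0 | h0
  · -- r = 0
    have hc0 : c = 0 := by
      rw [← h0] at hcr; exact abs_eq_zero.1 (le_antisymm hcr (abs_nonneg _))
    have hs0 : s = 0 := by
      rw [← h0] at hsr; exact abs_eq_zero.1 (le_antisymm hsr (abs_nonneg _))
    rw [hc0, hs0, ← h0, Real.zero_rpow hp.ne']
    simp only [zero_div, mul_zero, sub_zero, zero_add, abs_zero, add_zero]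
    rw [abs_of_pos (by positivity)]
    have : q / p * (1 / q) = 1 / p := by field_simp
    calc 1 / p = q / p * (1 / q) := this.symm
      _ ≤ _ := by
        apply mul_le_mul_of_nonneg_right _ (by positivity)
        have : 0 ≤ K1 / c1 + (exp 2 + exp 1) + 4 / c2 := by positivity
        linarith
  · obtain ⟨t, rfl⟩ : ∃ t, exp t = r := ⟨log r, Real.exp_log h0⟩
    have hφ := young_nonneg hpq h0.le
    set φ : ℝ := (exp t) ^ p / p + 1 / q - exp t with hφd
    set u : ℝ := exp t - c with hu
    have hu0 : 0 ≤ u := by linarith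
    have hD : (exp t) ^ p / p + 1 / q - c = φ + u := by rw [hφd, hu]; ring
    rw [hD]
    have hpow : (exp t) ^ (p - 2) * exp t = (exp t) ^ (p - 1) := by
      rw [← Real.rpow_add_one (Real.exp_pos t).ne']
      congr 1
      ring
    rcases le_total t0 |t| with hfar' | hnear
    · -- far
      have h1 := hfar t hfar'
      have hpp : 0 ≤ (exp t) ^ p := by positivity
      have hr1 : exp t ≤ 1 + (exp t) ^ p := by
        rcases le_total (exp t) 1 with h | h
        · linarith
        · have := Real.self_le_rpow_of_one_le h hpq.lt.le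
          linarith
      have hr2 : (exp t) ^ (p - 1) ≤ 1 + (exp t) ^ p := by
        rcases le_total (exp t) 1 with h | h
        · have := Real.rpow_le_one (Real.exp_pos t).le h hp1.le
          linarith
        · have := Real.rpow_le_rpow_of_exponent_le h (show p - 1 ≤ p by linarith)
          linarith
      have hpc : |(exp t) ^ (p - 2) * c| ≤ (exp t) ^ (p - 1) := by
        rw [abs_mul, abs_of_pos (by positivity), ← hpow]
        gcongr
      have hps : |(exp t) ^ (p - 2) * s| ≤ (exp t) ^ (p - 1) := by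
        rw [abs_mul, abs_of_pos (by positivity), ← hpow]
        gcongr
      have hq1 : 1 / q ≤ 1 := by
        rw [div_le_one hq]; exact hpq.symm.lt.le
      have hp1' : 1 / p ≤ 1 := by
        rw [div_le_one hp]; exact hpq.lt.le
      have hdq : (exp t) ^ p / q ≤ (exp t) ^ p := div_le_self hpp hpq.symm.lt.le
      have hA : |(exp t) ^ p / q + 1 / p - (exp t) ^ (p - 2) * c| ≤
          (exp t) ^ p + 1 + (exp t) ^ (p - 1) := by
        calc _ ≤ |(exp t) ^ p / q + 1 / p| + |(exp t) ^ (p - 2) * c| := abs_sub _ _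
          _ ≤ _ := by
            rw [abs_of_pos (by positivity : 0 < (exp t) ^ p / q + 1 / p)]
            linarith
      have hB : |(exp t) ^ (p - 2) * s - s| ≤ (exp t) ^ (p - 1) + exp t := by
        calc _ ≤ |(exp t) ^ (p - 2) * s| + |s| := abs_sub _ _
          _ ≤ _ := by linarith
      calc _ ≤ 4 * (1 + (exp t) ^ p) := by linarith
        _ = 4 / c2 * (c2 * (1 + (exp t) ^ p)) := by field_simp
        _ ≤ 4 / c2 * (φ + u) := by
            gcongr
            linarith
        _ ≤ _ := by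
            apply mul_le_mul_of_nonneg_right _ (by linarith)
            have : 0 ≤ K1 / c1 + (exp 2 + exp 1) + q / p := by positivity
            linarith
    · -- near
      have ht1 : |t| ≤ 1 / 2 := hnear.trans (min_le_left _ _)
      have ht2 : (p - 1) * |t| ≤ 1 / 2 := by
        calc (p - 1) * |t| ≤ (p - 1) * (1 / (2 * (p - 1))) := by
              gcongr
              exact hnear.trans (min_le_right _ _)
          _ = 1 / 2 := by field_simp
      have ht2' : |(p - 1) * t| ≤ 1 / 2 := by rwa [abs_mul, abs_of_pos hp1]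
      have h1 := near hpq (show |t| ≤ 1 by linarith)
      rw [← hc1, ← hφd] at h1
      -- phi1
      have e1 : |exp t - 1 - t| ≤ t ^ 2 := Real.abs_exp_sub_one_sub_id_le (by linarith)
      have e2 : |exp (-((p - 1) * t)) - 1 - (-((p - 1) * t))| ≤ (-((p - 1) * t)) ^ 2 :=
        Real.abs_exp_sub_one_sub_id_le (by rw [abs_neg]; linarith)
      have e3 : exp ((p - 1) * t) ≤ exp 1 :=
        Real.exp_le_exp.2 (by have := (abs_le.1 ht2').2; linarith)
      have e4 : exp t ≤ exp 1 := Real.exp_le_exp.2 (by have := (abs_le.1 ht1).2; linarith)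
      have hφ1 : |(exp t) ^ p / q + 1 / p - (exp t) ^ (p - 1)| ≤
          exp 1 * (1 / q + (p - 1) ^ 2 / p) * t ^ 2 := by
        rw [phi1_exp hpq, abs_mul, abs_of_pos (Real.exp_pos _), mul_assoc]
        apply mul_le_mul e3 _ (abs_nonneg _) (Real.exp_pos _).le
        calc _ ≤ |(exp t - 1 - t) / q| + |(exp (-((p - 1) * t)) - 1 - (-((p - 1) * t))) / p| :=
              abs_add_le _ _
          _ = |exp t - 1 - t| / q + |exp (-((p - 1) * t)) - 1 - (-((p - 1) * t))| / p := by
              rw [abs_div, abs_div, abs_of_pos hp, abs_of_pos hq]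
          _ ≤ t ^ 2 / q + (-((p - 1) * t)) ^ 2 / p := by gcongr
          _ = _ := by ring
      have hx : |(p - 2) * t| ≤ 1 := by
        have : (p - 2) * t = (p - 1) * t - t := by ring
        rw [this]
        calc _ ≤ |(p - 1) * t| + |t| := abs_sub _ _
          _ ≤ 1 := by linarith
      have hpw2 : (exp t) ^ (p - 2) = exp ((p - 2) * t) := by
        rw [← Real.exp_mul]
        congr 1
        ring
      have e5 : |(exp t) ^ (p - 2) - 1| ≤ 2 * |(p - 2) * t| := by
        rw [hpw2]
        exact Real.abs_exp_sub_one_le hx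
      have e6 : (exp t) ^ (p - 2) ≤ exp 2 := by
        rw [hpw2]
        exact Real.exp_le_exp.2 (by have := (abs_le.1 hx).2; linarith)
      have hA : |(exp t) ^ p / q + 1 / p - (exp t) ^ (p - 2) * c| ≤
          exp 1 * (1 / q + (p - 1) ^ 2 / p) * t ^ 2 + exp 2 * u := by
        have : (exp t) ^ p / q + 1 / p - (exp t) ^ (p - 2) * c =
            ((exp t) ^ p / q + 1 / p - (exp t) ^ (p - 1)) + (exp t) ^ (p - 2) * u := by
          rw [hu, mul_sub, hpow]; ring
        rw [this]
        calc _ ≤ |(exp t) ^ p / q + 1 / p - (exp t) ^ (p - 1)| + |(exp t) ^ (p - 2) * u| :=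
              abs_add_le _ _
          _ ≤ _ := by
              rw [abs_of_nonneg (by positivity : 0 ≤ (exp t) ^ (p - 2) * u)]
              gcongr
      have hs2 : s ^ 2 ≤ 2 * exp 1 * u := by
        have : s ^ 2 = (exp t - c) * (exp t + c) := by nlinarith
        rw [this, ← hu]
        have : exp t + c ≤ 2 * exp 1 := by linarith
        nlinarith
      have hB : |(exp t) ^ (p - 2) * s - s| ≤ 2 * (p - 2) ^ 2 * t ^ 2 + exp 1 * u := by
        have : (exp t) ^ (p - 2) * s - s = ((exp t) ^ (p - 2) - 1) * s := by ring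
        rw [this, abs_mul]
        calc |(exp t) ^ (p - 2) - 1| * |s| ≤ 2 * |(p - 2) * t| * |s| := by gcongr
          _ ≤ ((2 * |(p - 2) * t|) ^ 2 + |s| ^ 2) / 2 := by
              nlinarith [sq_nonneg (2 * |(p - 2) * t| - |s|)]
          _ = 2 * (p - 2) ^ 2 * t ^ 2 + s ^ 2 / 2 := by
              rw [mul_pow, sq_abs, sq_abs]; ring
          _ ≤ _ := by linarith
      calc _ ≤ K1 * t ^ 2 + (exp 2 + exp 1) * u := by
            rw [hK1]; linarith
        _ = K1 / c1 * (c1 * t ^ 2) + (exp 2 + exp 1) * u := by field_simp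
        _ ≤ K1 / c1 * φ + (exp 2 + exp 1) * u := by gcongr
        _ ≤ (K1 / c1 + (exp 2 + exp 1)) * (φ + u) := by
            have : 0 ≤ K1 / c1 * u := by positivity
            have : 0 ≤ (exp 2 + exp 1) * φ := by positivity
            nlinarith
        _ ≤ _ := by
            apply mul_le_mul_of_nonneg_right _ (by linarith)
            have : 0 ≤ 4 / c2 + q / p := by positivity
            linarith

end Pool.Agent.Y825.RK
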