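import Pool.Agent.Y825.RK.Point

open MeasureTheory
open scoped ComplexConjugate

namespace Pool.Agent.Y825.RK

variable {𝕜 : Type*} [RCLike 𝕜]

/-- The duality map `z ↦ |z|^(p-2) conj z`. -/
noncomputable def J (p : ℝ) (z : 𝕜) : 𝕜 := ((‖z‖ ^ (p - 2) : ℝ) : 𝕜) * conj z

lemma norm_J {p : ℝ} (hp : 1 < p) (z : 𝕜) : ‖J p z‖ = ‖z‖ ^ (p - 1) := by
  rw [J, norm_mul, RCLike.norm_conj, RCLike.norm_ofReal, abs_of_nonneg (by positivity)]
  rcases eq_or_ne z 0 with h | h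
  · rw [h, norm_zero, mul_zero, Real.zero_rpow (by linarith : p - 1 ≠ 0)]
  · have : 0 < ‖z‖ := norm_pos_iff.2 h
    rw [← Real.rpow_add_one this.ne']
    congr 1
    ring

lemma J_J {p q : ℝ} (hpq : p.HolderConjugate q) (z : 𝕜) : J q (J p z) = z := by
  rcases eq_or_ne z 0 with h | h
  · simp [h, J]
  · have h0 : 0 < ‖z‖ := norm_pos_iff.2 h
    have h1 : ‖J p z‖ = ‖z‖ ^ (p - 1) := norm_J hpq.lt z
    rw [J, h1, ← Real.rpow_mul h0.le, J, map_mul, RCLike.conj_ofReal, RCLike.conj_conj,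
      ← mul_assoc, ← RCLike.ofReal_mul, ← Real.rpow_add h0]
    have : (p - 1) * (q - 2) + (p - 2) = 0 := by
      have := hpq.mul_eq_add
      nlinarith
    rw [this, Real.rpow_zero, RCLike.ofReal_one, one_mul]

lemma norm_J_rpow {p q : ℝ} (hpq : p.HolderConjugate q) (z : 𝕜) : ‖J p z‖ ^ q = ‖z‖ ^ p := by
  rw [norm_J hpq.lt, ← Real.rpow_mul (norm_nonneg _), hpq.sub_one_mul_conj]

lemma J_unit {p : ℝ} (ω z : 𝕜) (hω : ‖ω‖ = 1) : J p (ω * z) = conj ω * J p z := by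
  rw [J, J, norm_mul, hω, one_mul, map_mul]
  ring

lemma J_real_mul {p : ℝ} {s : ℝ} (hs : 0 < s) (z : 𝕜) :
    J p ((s : 𝕜) * z) = ((s ^ (p - 1) : ℝ) : 𝕜) * J p z := by
  rw [J, J, norm_mul, RCLike.norm_ofReal, abs_of_pos hs, Real.mul_rpow hs.le (norm_nonneg _),
    map_mul, RCLike.conj_ofReal]
  have : s ^ (p - 1) = s ^ (p - 2) * s := by
    rw [← Real.rpow_add_one hs.ne']
    congr 1
    ring
  rw [this]
  push_cast
  ring

lemma measurable_J (p : ℝ) : Measurable (J p : 𝕜 → 𝕜) := by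
  unfold J
  apply Measurable.mul
  · exact RCLike.measurable_ofReal.comp (measurable_norm.pow_const _)
  · exact RCLike.continuous_conj.measurable

/-- The remainder of the duality map. -/
noncomputable def G (p q : ℝ) (z : 𝕜) : 𝕜 :=
  ((‖z‖ ^ p / q + 1 / p : ℝ) : 𝕜) - J p z - (z - ((RCLike.re z : ℝ) : 𝕜))

lemma norm_G_le {p q C : ℝ} 
    (hC : ∀ r c s : ℝ, 0 ≤ r → c ^ 2 + s ^ 2 = r ^ 2 →
      |r ^ p / q + 1 / p - r ^ (p - 2) * c| + |r ^ (p - 2) * s - s| ≤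
        C * (r ^ p / p + 1 / q - c)) (z : 𝕜) :
    ‖G p q z‖ ≤ C * (‖z‖ ^ p / p + 1 / q - RCLike.re z) := by
  have h1 := hC ‖z‖ (RCLike.re z) (RCLike.im z) (norm_nonneg _) (by
    have := RCLike.norm_sq_eq_def (z := z)
    nlinarith)
  refine le_trans ?_ h1
  have h2 : G p q z = ((‖z‖ ^ p / q + 1 / p - ‖z‖ ^ (p - 2) * RCLike.re z : ℝ) : 𝕜) +
      ((‖z‖ ^ (p - 2) * RCLike.im z - RCLike.im z : ℝ) : 𝕜) * RCLike.I := by
    have h3 : conj z = (RCLike.re z : 𝕜) - (RCLike.im z : 𝕜) * RCLike.I := RCLike.conj_eq_re_sub_im z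
    have h4 : z - ((RCLike.re z : ℝ) : 𝕜) = (RCLike.im z : 𝕜) * RCLike.I := by
      linear_combination -(RCLike.re_add_im z)
    rw [G, J, h3, h4]
    push_cast
    ring
  rw [h2]
  refine (norm_add_le _ _).trans ?_
  rw [norm_mul, RCLike.norm_ofReal, RCLike.norm_ofReal]
  have : ‖(RCLike.I : 𝕜)‖ ≤ 1 := by
    rcases RCLike.I_mul_I_ax (K := 𝕜) with h | h
    · rw [h, norm_zero]; exact zero_le_one
    · have : ‖(RCLike.I : 𝕜)‖ * ‖(RCLike.I : 𝕜)‖ = 1 := by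
        rw [← norm_mul, h, norm_neg, norm_one]
      nlinarith [norm_nonneg (RCLike.I : 𝕜)]
  have h5 : |‖z‖ ^ (p - 2) * RCLike.im z - RCLike.im z| * ‖(RCLike.I : 𝕜)‖ ≤
      |‖z‖ ^ (p - 2) * RCLike.im z - RCLike.im z| := mul_le_of_le_one_right (abs_nonneg _) this
  linarith

variable {Ω : Type*} [MeasurableSpace Ω]

lemma integrable_of_rpow {ν : Measure Ω} [IsFiniteMeasure ν] {p : ℝ} (hp : 1 ≤ p) {y : Ω → 𝕜}
    (hy : AEStronglyMeasurable y ν) (hi : Integrable (fun ω => ‖y ω‖ ^ p) ν) :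
    Integrable y ν := by
  refine Integrable.mono' ((integrable_const (1 : ℝ)).add hi) hy (ae_of_all _ fun ω => ?_)
  show ‖y ω‖ ≤ 1 + ‖y ω‖ ^ p
  rcases le_total ‖y ω‖ 1 with h | h
  · have : 0 ≤ ‖y ω‖ ^ p := by positivity
    linarith
  · have := Real.self_le_rpow_of_one_le h hp
    linarith

lemma integrable_J {ν : Measure Ω} [IsFiniteMeasure ν] {p q : ℝ} (hpq : p.HolderConjugate q)
    {y : Ω → 𝕜} (hy : AEStronglyMeasurable y ν) (hi : Integrable (fun ω => ‖y ω‖ ^ p) ν) :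
    Integrable (fun ω => J p (y ω)) ν := by
  apply integrable_of_rpow (p := q) hpq.symm.lt.le
  · exact ((measurable_J p).comp_aemeasurable hy.aemeasurable).aestronglyMeasurable
  · simpa only [norm_J_rpow hpq] using hi

/-- Phase normalized form. -/
lemma prob_aux {ν : Measure Ω} [IsProbabilityMeasure ν] {p q : ℝ} (hpq : p.HolderConjugate q)
    {C : ℝ} (hC0 : 0 ≤ C)
    (hC : ∀ r c s : ℝ, 0 ≤ r → c ^ 2 + s ^ 2 = r ^ 2 →
      |r ^ p / q + 1 / p - r ^ (p - 2) * c| + |r ^ (p - 2) * s - s| ≤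
        C * (r ^ p / p + 1 / q - c))
    {y : Ω → 𝕜} (hy : AEStronglyMeasurable y ν) (hi : Integrable (fun ω => ‖y ω‖ ^ p) ν)
    (h1 : ∫ ω, ‖y ω‖ ^ p ∂ν = 1) (hre : ∫ ω, y ω ∂ν = ((‖∫ ω, y ω ∂ν‖ : ℝ) : 𝕜)) :
    ‖∫ ω, y ω ∂ν‖ ≤ 1 ∧ ‖1 - (∫ ω, y ω ∂ν) * ∫ ω, J p (y ω) ∂ν‖ ≤ (C + 1) * (1 - ‖∫ ω, y ω ∂ν‖) := by
  have hp := hpq.pos
  have hq := hpq.symm.pos
  have hsum : 1 / p + 1 / q = 1 := by
    have := hpq.inv_add_inv_eq_one
    simpa [one_div] using this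
  have hiy := integrable_of_rpow hpq.lt.le hy hi
  have hiJ := integrable_J hpq hy hi
  set a : ℝ := ‖∫ ω, y ω ∂ν‖ with ha
  have hire : Integrable (fun ω => RCLike.re (y ω)) ν := hiy.re
  have hre2 : ∫ ω, RCLike.re (y ω) ∂ν = a := by
    have := integral_re hiy
    rw [this, hre, RCLike.ofReal_re]
  have i0 : Integrable (fun ω => ‖y ω‖ ^ p / p) ν := hi.div_const p
  have i0' : Integrable (fun ω => ‖y ω‖ ^ p / q) ν := hi.div_const q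
  have i1 : Integrable (fun ω => ‖y ω‖ ^ p / p + 1 / q) ν := i0.add (integrable_const _)
  have i1' : Integrable (fun ω => ‖y ω‖ ^ p / q + 1 / p) ν := i0'.add (integrable_const _)
  have hDint : Integrable (fun ω => ‖y ω‖ ^ p / p + 1 / q - RCLike.re (y ω)) ν := i1.sub hire
  have hD : ∫ ω, (‖y ω‖ ^ p / p + 1 / q - RCLike.re (y ω)) ∂ν = 1 - a := by
    rw [integral_sub i1 hire,
      integral_add i0 (integrable_const _), integral_div, h1, hre2,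
      integral_const, probReal_univ, one_smul]
    linarith
  have hDnn : ∀ ω, 0 ≤ ‖y ω‖ ^ p / p + 1 / q - RCLike.re (y ω) := by
    intro ω
    have h2 := young_nonneg hpq (norm_nonneg (y ω))
    have h3 := RCLike.re_le_norm (y ω)
    linarith
  have ha1 : a ≤ 1 := by
    have : 0 ≤ ∫ ω, (‖y ω‖ ^ p / p + 1 / q - RCLike.re (y ω)) ∂ν := integral_nonneg hDnn
    rw [hD] at this
    linarith
  refine ⟨ha1, ?_⟩
  have hiP : Integrable (fun ω => ((‖y ω‖ ^ p / q + 1 / p : ℝ) : 𝕜)) ν := i1'.ofReal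
  have hiR : Integrable (fun ω => ((RCLike.re (y ω) : ℝ) : 𝕜)) ν := hire.ofReal
  have hG : ∫ ω, G p q (y ω) ∂ν = 1 - ∫ ω, J p (y ω) ∂ν := by
    unfold G
    have i2 : Integrable (fun ω => ((‖y ω‖ ^ p / q + 1 / p : ℝ) : 𝕜) - J p (y ω)) ν := hiP.sub hiJ
    have i3 : Integrable (fun ω => y ω - ((RCLike.re (y ω) : ℝ) : 𝕜)) ν := hiy.sub hiR
    rw [integral_sub i2 i3, integral_sub hiP hiJ, integral_sub hiy hiR]
    rw [integral_ofReal, integral_ofReal, hre2,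
      integral_add i0' (integrable_const _), integral_div, h1, integral_const,
      probReal_univ, one_smul]
    rw [hre, sub_self, sub_zero]
    congr 1
    rw [show (1 / q + 1 / p : ℝ) = 1 by linarith]
    simp
  have hGn : ‖1 - ∫ ω, J p (y ω) ∂ν‖ ≤ C * (1 - a) := by
    rw [← hG]
    calc ‖∫ ω, G p q (y ω) ∂ν‖ ≤ ∫ ω, C * (‖y ω‖ ^ p / p + 1 / q - RCLike.re (y ω)) ∂ν := by
          apply norm_integral_le_of_norm_le (hDint.const_mul C)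
          exact ae_of_all _ fun ω => norm_G_le hC (y ω)
      _ = C * (1 - a) := by rw [integral_const_mul, hD]
  have h4 : 1 - (∫ ω, y ω ∂ν) * ∫ ω, J p (y ω) ∂ν =
      ((1 - a : ℝ) : 𝕜) + (a : 𝕜) * (1 - ∫ ω, J p (y ω) ∂ν) := by
    rw [hre]
    push_cast
    ring
  rw [h4]
  calc _ ≤ ‖((1 - a : ℝ) : 𝕜)‖ + ‖(a : 𝕜) * (1 - ∫ ω, J p (y ω) ∂ν)‖ := norm_add_le _ _
    _ = (1 - a) + a * ‖1 - ∫ ω, J p (y ω) ∂ν‖ := by
        rw [RCLike.norm_ofReal, abs_of_nonneg (by linarith), norm_mul, RCLike.norm_ofReal,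
          abs_of_nonneg (by positivity)]
    _ ≤ (1 - a) + 1 * (C * (1 - a)) := by
        gcongr
    _ = _ := by ring

lemma exists_phase (a : 𝕜) : ∃ ω : 𝕜, ‖ω‖ = 1 ∧ ω * a = ((‖a‖ : ℝ) : 𝕜) := by
  rcases eq_or_ne a 0 with h | h
  · exact ⟨1, norm_one, by simp [h]⟩
  · have h0 : ‖a‖ ≠ 0 := norm_ne_zero_iff.2 h
    refine ⟨((‖a‖ : ℝ) : 𝕜) / a, ?_, by field_simp⟩
    rw [norm_div, RCLike.norm_ofReal, abs_of_nonneg (norm_nonneg a), div_self h0]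

/-- On a probability space. -/
theorem prob1 {ν : Measure Ω} [IsProbabilityMeasure ν] {p q : ℝ} (hpq : p.HolderConjugate q)
    {C : ℝ} (hC0 : 0 ≤ C)
    (hC : ∀ r c s : ℝ, 0 ≤ r → c ^ 2 + s ^ 2 = r ^ 2 →
      |r ^ p / q + 1 / p - r ^ (p - 2) * c| + |r ^ (p - 2) * s - s| ≤
        C * (r ^ p / p + 1 / q - c))
    {y : Ω → 𝕜} (hy : AEStronglyMeasurable y ν) (hi : Integrable (fun ω => ‖y ω‖ ^ p) ν)
    (h1 : ∫ ω, ‖y ω‖ ^ p ∂ν = 1) :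
    ‖∫ ω, y ω ∂ν‖ ≤ 1 ∧ ‖1 - (∫ ω, y ω ∂ν) * ∫ ω, J p (y ω) ∂ν‖ ≤ (C + 1) * (1 - ‖∫ ω, y ω ∂ν‖) := by
  obtain ⟨w, hw, hwa⟩ := exists_phase (∫ ω, y ω ∂ν)
  have e1 : ∀ ω, ‖w * y ω‖ = ‖y ω‖ := fun ω => by rw [norm_mul, hw, one_mul]
  have e2 : ∫ ω, w * y ω ∂ν = w * ∫ ω, y ω ∂ν := integral_const_mul _ _
  have e3 : ∫ ω, J p (w * y ω) ∂ν = conj w * ∫ ω, J p (y ω) ∂ν := by
    simp only [J_unit w _ hw]
    exact integral_const_mul _ _
  have e4 : ‖w * ∫ ω, y ω ∂ν‖ = ‖∫ ω, y ω ∂ν‖ := by rw [norm_mul, hw, one_mul]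
  have h := prob_aux (ν := ν) hpq hC0 hC (y := fun ω => w * y ω) (hy.const_mul w)
    (by simpa only [e1] using hi) (by simpa only [e1] using h1) (by
      rw [e2, e4, hwa])
  simp only [e2, e3, e4] at h
  have e5 : w * (∫ ω, y ω ∂ν) * (conj w * ∫ ω, J p (y ω) ∂ν) =
      (∫ ω, y ω ∂ν) * ∫ ω, J p (y ω) ∂ν := by
    have : w * conj w = 1 := by rw [RCLike.mul_conj, hw]; simp
    calc _ = (w * conj w) * ((∫ ω, y ω ∂ν) * ∫ ω, J p (y ω) ∂ν) := by ring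
      _ = _ := by rw [this, one_mul]
  rwa [e5] at h

/-- The dual form on a probability space. -/
theorem prob2 {ν : Measure Ω} [IsProbabilityMeasure ν] {p q : ℝ} (hpq : p.HolderConjugate q)
    {C : ℝ} (hC0 : 0 ≤ C)
    (hC : ∀ r c s : ℝ, 0 ≤ r → c ^ 2 + s ^ 2 = r ^ 2 →
      |r ^ q / p + 1 / q - r ^ (q - 2) * c| + |r ^ (q - 2) * s - s| ≤
        C * (r ^ q / q + 1 / p - c))
    {y : Ω → 𝕜} (hy : AEStronglyMeasurable y ν) (hi : Integrable (fun ω => ‖y ω‖ ^ p) ν)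
    (h1 : ∫ ω, ‖y ω‖ ^ p ∂ν = 1) :
    ‖∫ ω, J p (y ω) ∂ν‖ ≤ 1 ∧
      ‖1 - (∫ ω, y ω ∂ν) * ∫ ω, J p (y ω) ∂ν‖ ≤ (C + 1) * (1 - ‖∫ ω, J p (y ω) ∂ν‖) := by
  have h := prob1 (ν := ν) hpq.symm hC0 hC (y := fun ω => J p (y ω))
    (((measurable_J p).comp_aemeasurable hy.aemeasurable).aestronglyMeasurable)
    (by simpa only [norm_J_rpow hpq] using hi) (by simpa only [norm_J_rpow hpq] using h1)
  simp only [J_J hpq] at h
  rwa [mul_comm (∫ ω, J p (y ω) ∂ν)] at h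

end Pool.Agent.Y825.RK
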