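import Pool.Agent.Y825.RK.Loc

open MeasureTheory Filter Topology
open scoped ComplexConjugate ENNReal

namespace Pool.Agent.Y825.RK

variable {𝕜 : Type*} [RCLike 𝕜] {Ω : Type*} [MeasurableSpace Ω] {μ : Measure Ω}
  {p : ℝ≥0∞} [Fact (1 ≤ p)]

/-- The unit vector of a set. -/
noncomputable def eV (𝕜 : Type*) [RCLike 𝕜] (p : ℝ≥0∞) {A : Set Ω} (hA : MeasurableSet A)
    (hAt : μ A ≠ ∞) : Lp 𝕜 p μ :=
  indicatorConstLp p hA hAt (((μ.real A ^ (-(1 / p.toReal)) : ℝ)) : 𝕜)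

/-- The dual functional of the unit vector of a set. -/
noncomputable def eF (𝕜 : Type*) [RCLike 𝕜] {p : ℝ≥0∞} [Fact (1 ≤ p)] (h1 : 1 < p.toReal)
    (htop : p ≠ ∞) {q : ℝ} (hpq : p.toReal.HolderConjugate q)
    {A : Set Ω} (hA0 : μ A ≠ 0) (hAt : μ A ≠ ∞) : Lp 𝕜 p μ →L[𝕜] 𝕜 :=
  LinearMap.mkContinuous
    { toFun := fun x => ((μ.real A ^ (-(1 / q)) : ℝ) : 𝕜) * ∫ ω in A, x ω ∂μ
      map_add' := by
        intro x y
        have h2 : ∫ ω in A, (x + y : Lp 𝕜 p μ) ω ∂μ = ∫ ω in A, (x ω + y ω) ∂μ :=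
          integral_congr_ae (ae_restrict_of_ae (Lp.coeFn_add x y))
        rw [h2, integral_add (integrableOn_Lp_of_measure_ne_top x Fact.out hAt)
          (integrableOn_Lp_of_measure_ne_top y Fact.out hAt), mul_add]
      map_smul' := by
        intro c x
        have h2 : ∫ ω in A, (c • x : Lp 𝕜 p μ) ω ∂μ = ∫ ω in A, c * x ω ∂μ :=
          integral_congr_ae (ae_restrict_of_ae (Lp.coeFn_smul c x))
        rw [h2, integral_const_mul, RingHom.id_apply, smul_eq_mul]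
        ring }
    1 (by
      intro x
      obtain ⟨C, hC⟩ := exists_good hpq
      have hi := integrable_rpow h1 htop x
      have h2 := (loc hpq hC hA0 hAt (x := x) (Lp.aestronglyMeasurable x).restrict
        hi.integrableOn rfl rfl rfl rfl).1
      have h3 : ∫ ω in A, ‖x ω‖ ^ p.toReal ∂μ ≤ ‖x‖ ^ p.toReal := by
        rw [norm_rpow h1 htop]
        exact setIntegral_le_integral hi (ae_of_all _ fun ω => by positivity)
      have h4 : (∫ ω in A, ‖x ω‖ ^ p.toReal ∂μ) ^ (1 / p.toReal) ≤ ‖x‖ := by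
        calc _ ≤ (‖x‖ ^ p.toReal) ^ (1 / p.toReal) :=
              Real.rpow_le_rpow (integral_nonneg fun ω => by positivity) h3 (by positivity)
          _ = ‖x‖ := by
              rw [← Real.rpow_mul (norm_nonneg _), mul_one_div_cancel (by linarith), Real.rpow_one]
      rw [one_mul]
      exact h2.trans h4)

lemma eF_apply (h1 : 1 < p.toReal)
    (htop : p ≠ ∞) {q : ℝ} (hpq : p.toReal.HolderConjugate q)
    {A : Set Ω} (hA0 : μ A ≠ 0) (hAt : μ A ≠ ∞) (x : Lp 𝕜 p μ) :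
    eF 𝕜 h1 htop hpq hA0 hAt x = ((μ.real A ^ (-(1 / q)) : ℝ) : 𝕜) * ∫ ω in A, x ω ∂μ := rfl

lemma real_pos {A : Set Ω} (hA0 : μ A ≠ 0) (hAt : μ A ≠ ∞) : 0 < μ.real A := by
  rw [Measure.real]
  exact ENNReal.toReal_pos hA0 hAt

lemma eF_eV_self (h1 : 1 < p.toReal)
    (htop : p ≠ ∞) {q : ℝ} (hpq : p.toReal.HolderConjugate q)
    {A : Set Ω} (hA : MeasurableSet A) (hA0 : μ A ≠ 0) (hAt : μ A ≠ ∞) :
    eF 𝕜 h1 htop hpq hA0 hAt (eV 𝕜 p hA hAt) = 1 := by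
  have hα := real_pos hA0 hAt
  rw [eF_apply]
  have h2 : ∫ ω in A, (eV 𝕜 p hA hAt : Lp 𝕜 p μ) ω ∂μ =
      ∫ ω in A, (((μ.real A ^ (-(1 / p.toReal)) : ℝ)) : 𝕜) ∂μ := by
    apply integral_congr_ae
    exact indicatorConstLp_coeFn_mem
      |> fun h => (ae_restrict_iff' hA).2 h
  rw [h2, setIntegral_const, RCLike.real_smul_eq_coe_mul, ← RCLike.ofReal_mul, ← RCLike.ofReal_mul]
  have h3 : μ.real A ^ (-(1 / q)) * (μ.real A * μ.real A ^ (-(1 / p.toReal))) = 1 := by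
    have hsum : 1 / p.toReal + 1 / q = 1 := by
      have := hpq.inv_add_inv_eq_one
      simpa [one_div] using this
    conv_lhs => enter [2, 1]; rw [← Real.rpow_one (μ.real A)]
    rw [← Real.rpow_add hα, ← Real.rpow_add hα]
    rw [show -(1 / q) + (1 + -(1 / p.toReal)) = 0 by linarith, Real.rpow_zero]
  rw [h3, RCLike.ofReal_one]

lemma eF_eV_disj (h1 : 1 < p.toReal)
    (htop : p ≠ ∞) {q : ℝ} (hpq : p.toReal.HolderConjugate q)
    {A B : Set Ω} (hA : MeasurableSet A) (hA0 : μ A ≠ 0) (hAt : μ A ≠ ∞)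
    (hB : MeasurableSet B) (hBt : μ B ≠ ∞) (hAB : Disjoint A B) :
    eF 𝕜 h1 htop hpq hA0 hAt (eV 𝕜 p hB hBt) = 0 := by
  rw [eF_apply]
  have h2 : ∫ ω in A, (eV 𝕜 p hB hBt : Lp 𝕜 p μ) ω ∂μ = ∫ ω in A, (0 : 𝕜) ∂μ := by
    apply integral_congr_ae
    have h3 : ∀ᵐ ω ∂μ, ω ∉ B → (eV 𝕜 p hB hBt : Lp 𝕜 p μ) ω = 0 := indicatorConstLp_coeFn_notMem
    rw [EventuallyEq, ae_restrict_iff' hA]
    filter_upwards [h3] with ω h4 h5
    exact h4 (Set.disjoint_left.1 hAB h5)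
  rw [h2]
  simp

/-- Value of the norming functional at the unit vector of a set. -/
lemma f_eV (h1 : 1 < p.toReal) (htop : p ≠ ∞) {x : Lp 𝕜 p μ} {f : Lp 𝕜 p μ →L[𝕜] 𝕜}
    (hx : ‖x‖ = 1) (hf : ‖f‖ = 1) (hfx : f x = 1) {A : Set Ω} (hA : MeasurableSet A)
    (hAt : μ A ≠ ∞) :
    f (eV 𝕜 p hA hAt) = ((μ.real A ^ (-(1 / p.toReal)) : ℝ) : 𝕜) *
      ∫ ω in A, J p.toReal (x ω) ∂μ := by
  rw [norming h1 htop hx hf hfx]
  have h2 : ∫ ω, J p.toReal (x ω) * (eV 𝕜 p hA hAt : Lp 𝕜 p μ) ω ∂μ =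
      ∫ ω, A.indicator (fun ω => J p.toReal (x ω) *
        (((μ.real A ^ (-(1 / p.toReal)) : ℝ)) : 𝕜)) ω ∂μ := by
    apply integral_congr_ae
    have h3 : (eV 𝕜 p hA hAt : Lp 𝕜 p μ) =ᵐ[μ] A.indicator fun _ =>
      (((μ.real A ^ (-(1 / p.toReal)) : ℝ)) : 𝕜) := indicatorConstLp_coeFn
    filter_upwards [h3] with ω h4
    rw [h4]
    by_cases h5 : ω ∈ A
    · rw [Set.indicator_of_mem h5, Set.indicator_of_mem h5]
    · rw [Set.indicator_of_notMem h5, Set.indicator_of_notMem h5, mul_zero]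
  rw [h2, integral_indicator hA, integral_mul_const, mul_comm]

lemma norm_two (h1 : 1 < p.toReal) (htop : p ≠ ∞)
    {A B : Set Ω} (hA : MeasurableSet A) (hA0 : μ A ≠ 0) (hAt : μ A ≠ ∞)
    (hB : MeasurableSet B) (hB0 : μ B ≠ 0) (hBt : μ B ≠ ∞) (hAB : Disjoint A B) (c d : 𝕜) :
    ‖c • eV 𝕜 p hA hAt + d • eV 𝕜 p hB hBt‖ ^ p.toReal = ‖c‖ ^ p.toReal + ‖d‖ ^ p.toReal := by
  have hα := real_pos hA0 hAt
  have hβ := real_pos hB0 hBt
  have hp0 : 0 < p.toReal := by linarith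
  set α := μ.real A with hαd
  set β := μ.real B with hβd
  rw [norm_rpow h1 htop]
  have h2 : ∫ ω, ‖(c • eV 𝕜 p hA hAt + d • eV 𝕜 p hB hBt : Lp 𝕜 p μ) ω‖ ^ p.toReal ∂μ =
      ∫ ω, (A.indicator (fun _ => ‖c‖ ^ p.toReal * α⁻¹) ω +
        B.indicator (fun _ => ‖d‖ ^ p.toReal * β⁻¹) ω) ∂μ := by
    apply integral_congr_ae
    have h3 : (eV 𝕜 p hA hAt : Lp 𝕜 p μ) =ᵐ[μ] A.indicator fun _ =>
      (((α ^ (-(1 / p.toReal)) : ℝ)) : 𝕜) := indicatorConstLp_coeFn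
    have h4 : (eV 𝕜 p hB hBt : Lp 𝕜 p μ) =ᵐ[μ] B.indicator fun _ =>
      (((β ^ (-(1 / p.toReal)) : ℝ)) : 𝕜) := indicatorConstLp_coeFn
    filter_upwards [Lp.coeFn_add (c • eV 𝕜 p hA hAt) (d • eV 𝕜 p hB hBt),
      Lp.coeFn_smul c (eV 𝕜 p hA hAt : Lp 𝕜 p μ),
      Lp.coeFn_smul d (eV 𝕜 p hB hBt : Lp 𝕜 p μ), h3, h4] with ω e1 e2 e3 e4 e5
    rw [e1, Pi.add_apply, e2, e3, Pi.smul_apply, Pi.smul_apply, e4, e5, smul_eq_mul, smul_eq_mul]
    have hpow : ∀ (γ : ℝ), 0 < γ → ∀ (e : 𝕜),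
        ‖e * ((γ ^ (-(1 / p.toReal)) : ℝ) : 𝕜)‖ ^ p.toReal = ‖e‖ ^ p.toReal * γ⁻¹ := by
      intro γ hγ e
      rw [norm_mul, RCLike.norm_ofReal, abs_of_pos (by positivity),
        Real.mul_rpow (norm_nonneg _) (by positivity), ← Real.rpow_mul hγ.le]
      congr 1
      rw [neg_mul, one_div_mul_cancel hp0.ne', Real.rpow_neg_one]
    by_cases hωA : ω ∈ A
    · have hωB : ω ∉ B := Set.disjoint_left.1 hAB hωA
      rw [Set.indicator_of_mem hωA, Set.indicator_of_notMem hωB, Set.indicator_of_mem hωA,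
        Set.indicator_of_notMem hωB, mul_zero, add_zero, add_zero, hpow α hα]
    · by_cases hωB : ω ∈ B
      · rw [Set.indicator_of_notMem hωA, Set.indicator_of_mem hωB, Set.indicator_of_notMem hωA,
          Set.indicator_of_mem hωB, mul_zero, zero_add, zero_add, hpow β hβ]
      · rw [Set.indicator_of_notMem hωA, Set.indicator_of_notMem hωB, Set.indicator_of_notMem hωA,
          Set.indicator_of_notMem hωB, mul_zero, mul_zero, add_zero, norm_zero,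
          Real.zero_rpow hp0.ne', add_zero]
  rw [h2]
  have i1 : Integrable (A.indicator (fun _ => ‖c‖ ^ p.toReal * α⁻¹)) μ :=
    (integrable_indicator_iff hA).2 (integrableOn_const hAt)
  have i2 : Integrable (B.indicator (fun _ => ‖d‖ ^ p.toReal * β⁻¹)) μ :=
    (integrable_indicator_iff hB).2 (integrableOn_const hBt)
  rw [integral_add i1 i2, integral_indicator hA, integral_indicator hB, setIntegral_const,
    setIntegral_const, smul_eq_mul, smul_eq_mul, ← hαd, ← hβd]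
  field_simp

/-- The main estimate. -/
lemma main_bound (h1 : 1 < p.toReal) (htop : p ≠ ∞) {q : ℝ} (hpq : p.toReal.HolderConjugate q)
    {C C1 t₀ : ℝ} (hC1 : Good p.toReal q C1) (hC0 : 0 ≤ C)
    (hkey : ∀ t : ℝ, |t| ≤ t₀ → ∀ l m : ℝ, 0 ≤ l → 0 ≤ m → l + m ≤ 1 →
      l ^ (1 / p.toReal) * m ^ (1 / q) + t * (m - (p.toReal - 1) * l) ≤
        H398R3.RO.kap p.toReal q + C * t ^ 2)
    {A B : Set Ω} (hA : MeasurableSet A) (hA0 : μ A ≠ 0) (hAt : μ A ≠ ∞)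
    (hB : MeasurableSet B) (hB0 : μ B ≠ 0) (hBt : μ B ≠ ∞) (hAB : Disjoint A B)
    {η : ℝ} (hη : 0 < η) (hηt : η ≤ t₀)
    (hη2 : η ≤ H398R3.RO.kap p.toReal q / (2 * (p.toReal * (1 + (C1 + 1)))))
    {x : Lp 𝕜 p μ} {f : Lp 𝕜 p μ →L[𝕜] 𝕜}
    (hx : ‖x‖ = 1) (hf : ‖f‖ = 1) (hfx : f x = 1) :
    ‖(eF 𝕜 h1 htop hpq hA0 hAt x + (η : 𝕜) * eF 𝕜 h1 htop hpq hB0 hBt x) *
      (f (eV 𝕜 p hB hBt) - (((p.toReal - 1) * η : ℝ) : 𝕜) * f (eV 𝕜 p hA hAt))‖ ≤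
      H398R3.RO.kap p.toReal q + (C + (p.toReal - 1)) * η ^ 2 := by
  have hi := integrable_rpow h1 htop x
  have hp0 : 0 < p.toReal := by linarith
  have hq0 := hpq.symm.pos
  set l : ℝ := ∫ ω in A, ‖x ω‖ ^ p.toReal ∂μ with hl
  set m : ℝ := ∫ ω in B, ‖x ω‖ ^ p.toReal ∂μ with hm
  have hl0 : 0 ≤ l := integral_nonneg fun ω => by positivity
  have hm0 : 0 ≤ m := integral_nonneg fun ω => by positivity
  have hlm : l + m ≤ 1 := by
    have h2 := norm_rpow h1 htop x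
    rw [hx, Real.one_rpow] at h2
    rw [h2, hl, hm, ← setIntegral_union hAB hB hi.integrableOn hi.integrableOn]
    exact setIntegral_le_integral hi (ae_of_all _ fun ω => by positivity)
  have rA := loc hpq hC1 hA0 hAt (x := x) (Lp.aestronglyMeasurable x).restrict
    hi.integrableOn hl rfl (eF_apply (𝕜 := 𝕜) h1 htop hpq hA0 hAt x)
    (f_eV h1 htop hx hf hfx hA hAt)
  have rB := loc hpq hC1 hB0 hBt (x := x) (Lp.aestronglyMeasurable x).restrict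
    hi.integrableOn hm rfl (eF_apply (𝕜 := 𝕜) h1 htop hpq hB0 hBt x)
    (f_eV h1 htop hx hf hfx hB hBt)
  refine numer (l := l) (m := m) (la := l ^ (1 / p.toReal)) (la' := l ^ (1 / q))
    (mb := m ^ (1 / p.toReal)) (mb' := m ^ (1 / q)) h1 (H398R3.RO.kap_pos hp0 hq0)
    (by have := hC1.1; linarith) hη hηt hη2 hC0 hl0 hm0 hlm ?_ ?_ ?_ ?_ ?_ ?_ ?_
    rA.1 rA.2.1 rB.1 rB.2.1 rA.2.2.1 rB.2.2.2
  · exact Real.rpow_le_one hl0 (by linarith) (by positivity)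
  · positivity
  · exact Real.rpow_le_one hl0 (by linarith) (by positivity)
  · positivity
  · exact Real.rpow_le_one hm0 (by linarith) (by positivity)
  · exact Real.rpow_le_one hm0 (by linarith) (by positivity)
  · exact fun t ht => hkey t ht l m hl0 hm0 hlm

end Pool.Agent.Y825.RK
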